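import Pool.Agent.Run7.h307.Ht

/-!
# Anisotropic forms and affine coordinates
-/

set_option autoImplicit false

namespace Run7.h307

open MvPolynomial Height

/-- **Anisotropic forms** over number fields. -/
theorem exists_anisotropic (K : Type) [Field K] [NumberField K] (N : ℕ) :
    ∃ A : MvPolynomial (Fin (N + 1)) K, A.IsHomogeneous (N + 1) ∧
      ∀ z : Fin (N + 1) → K, z ≠ 0 → eval z A ≠ 0 := by
  classical
  obtain ⟨P, hP⟩ := Ideal.exists_maximal (NumberField.RingOfIntegers K)
  let v : IsDedekindDomain.HeightOneSpectrum (NumberField.RingOfIntegers K) :=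
    ⟨P, hP.isPrime, Ring.ne_bot_of_isMaximal_of_not_isField hP
      (NumberField.RingOfIntegers.not_isField K)⟩
  obtain ⟨π, hπ⟩ := v.valuation_exists_uniformizer K
  have hval : ∀ (z : K), z ≠ 0 → ∃ m : ℤ, v.valuation K z = WithZero.exp m := by
    intro z hz
    have h1 : v.valuation K z ≠ 0 := (Valuation.ne_zero_iff _).2 hz
    exact ⟨WithZero.log (v.valuation K z), (WithZero.exp_log h1).symm⟩
  refine ⟨∑ i : Fin (N + 1), C (π ^ (i : ℕ)) * X i ^ (N + 1), ?_, fun z hz h0 => ?_⟩
  · refine IsHomogeneous.sum _ _ _ fun i _ => ?_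
    have := (isHomogeneous_C (Fin (N + 1)) (π ^ (i : ℕ))).mul (isHomogeneous_X_pow i (N + 1))
    rwa [zero_add] at this
  · have h0' : ∑ i : Fin (N + 1), π ^ (i : ℕ) * z i ^ (N + 1) = 0 := by
      rw [← h0, map_sum]
      refine Finset.sum_congr rfl fun i _ => ?_
      rw [map_mul, eval_C, map_pow (eval z), eval_X]
    have hv : ∀ i : Fin (N + 1), z i ≠ 0 → ∃ m : ℤ,
        v.valuation K (π ^ (i : ℕ) * z i ^ (N + 1)) =
          WithZero.exp (-(i : ℤ) + ((N + 1 : ℕ) : ℤ) * m) := by
      intro i hi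
      obtain ⟨m, hm⟩ := hval (z i) hi
      refine ⟨m, ?_⟩
      rw [map_mul, map_pow, map_pow, hπ, hm, ← WithZero.exp_nsmul, ← WithZero.exp_nsmul,
        ← WithZero.exp_add]
      congr 1
      simp
    obtain ⟨j, -, hj⟩ := Finset.exists_max_image (Finset.univ : Finset (Fin (N + 1)))
      (fun i => v.valuation K (π ^ (i : ℕ) * z i ^ (N + 1))) ⟨0, Finset.mem_univ _⟩
    obtain ⟨k, hk⟩ := Function.ne_iff.1 hz
    simp only [Pi.zero_apply] at hk
    have hvj : v.valuation K (π ^ (j : ℕ) * z j ^ (N + 1)) ≠ 0 := by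
      intro h1
      obtain ⟨m, hm⟩ := hv k hk
      have h2 := hj k (Finset.mem_univ k)
      rw [h1, hm] at h2
      exact WithZero.exp_ne_zero (le_antisymm h2 zero_le)
    have hzj : z j ≠ 0 := by
      intro h1
      apply hvj
      rw [h1]
      simp
    have hlt : ∀ i ∈ Finset.univ.erase j, v.valuation K (π ^ (i : ℕ) * z i ^ (N + 1)) <
        v.valuation K (π ^ (j : ℕ) * z j ^ (N + 1)) := by
      intro i hi
      refine lt_of_le_of_ne (hj i (Finset.mem_univ i)) fun h1 => ?_
      have hzi : z i ≠ 0 := by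
        intro h2
        rw [h2] at h1
        apply hvj
        rw [← h1]
        simp
      obtain ⟨m, hm⟩ := hv i hzi
      obtain ⟨m', hm'⟩ := hv j hzj
      rw [hm, hm'] at h1
      have h2 := WithZero.exp_injective h1
      have h3 : ((i : ℕ) : ℤ) = ((j : ℕ) : ℤ) := by
        have h4 : ((i : ℕ) : ℤ) < ((N + 1 : ℕ) : ℤ) := by exact_mod_cast i.2
        have h5 : ((j : ℕ) : ℤ) < ((N + 1 : ℕ) : ℤ) := by exact_mod_cast j.2
        have h6 : ((i : ℕ) : ℤ) - ((j : ℕ) : ℤ) = ((N + 1 : ℕ) : ℤ) * (m - m') := by linarith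
        have h7 : (0 : ℤ) ≤ ((i : ℕ) : ℤ) := Int.natCast_nonneg _
        have h8 : (0 : ℤ) ≤ ((j : ℕ) : ℤ) := Int.natCast_nonneg _
        rcases lt_trichotomy (m - m') 0 with h9 | h9 | h9
        · have h10 : m - m' ≤ -1 := by omega
          nlinarith
        · rw [h9, mul_zero] at h6
          linarith
        · have h10 : 1 ≤ m - m' := by omega
          nlinarith
      have h4 : i = j := Fin.ext (by exact_mod_cast h3)
      exact (Finset.ne_of_mem_erase hi) h4
    have h1 := (v.valuation K).map_sum_lt hvj hlt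
    rw [← Finset.add_sum_erase _ _ (Finset.mem_univ j)] at h0'
    have h2 : ∑ i ∈ Finset.univ.erase j, π ^ (i : ℕ) * z i ^ (N + 1) =
        -(π ^ (j : ℕ) * z j ^ (N + 1)) := by
      linear_combination h0'
    rw [h2, Valuation.map_neg] at h1
    exact lt_irrefl _ h1

variable {K : Type} [Field K] {N : ℕ}

/-- the numerators of the affine coordinates -/
noncomputable def num (p : Fin (N + 1) × Fin (N + 1)) : MvPolynomial (Fin (N + 1)) K :=
  X p.1 * X p.2 ^ N

theorem num_homog (p : Fin (N + 1) × Fin (N + 1)) :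
    (num p : MvPolynomial (Fin (N + 1)) K).IsHomogeneous (N + 1) := by
  have := (isHomogeneous_X_pow (R := K) p.2 N).mul (isHomogeneous_X K p.1)
  rw [mul_comm] at this
  exact this

/-- the affine coordinates -/
noncomputable def aff {L : Type} [Field L] [Algebra K L] (A : MvPolynomial (Fin (N + 1)) K)
    (z : Fin (N + 1) → L) (p : Fin (N + 1) × Fin (N + 1)) : L :=
  aeval z (num p : MvPolynomial (Fin (N + 1)) K) / aeval z A

theorem aeval_num {L : Type} [CommRing L] [Algebra K L] (z : Fin (N + 1) → L)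
    (p : Fin (N + 1) × Fin (N + 1)) :
    aeval z (num p : MvPolynomial (Fin (N + 1)) K) = z p.1 * z p.2 ^ N := by
  rw [num, map_mul, map_pow, aeval_X, aeval_X]

/-- homogeneous polynomials and scaling -/
theorem aeval_smul {L : Type} [CommRing L] [Algebra K L] {s : Type} {G : MvPolynomial s K} {e : ℕ}
    (hG : G.IsHomogeneous e) (c : L) (z : s → L) :
    aeval (fun i => c * z i) G = c ^ e * aeval z G := by
  classical
  rw [aeval_def, aeval_def, eval₂_eq, eval₂_eq, Finset.mul_sum]
  refine Finset.sum_congr rfl fun d hd => ?_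
  have h1 : ∑ i ∈ d.support, d i = e := by
    have h2 := hG (mem_support_iff.1 hd)
    rw [Finsupp.weight_apply] at h2
    simpa [Finsupp.sum] using h2
  simp only [mul_pow]
  rw [Finset.prod_mul_distrib, Finset.prod_pow_eq_pow_sum, h1]
  ring

theorem aff_smul {L : Type} [Field L] [Algebra K L] {A : MvPolynomial (Fin (N + 1)) K}
    (hA : A.IsHomogeneous (N + 1)) (c : L) (hc : c ≠ 0) (z : Fin (N + 1) → L) :
    aff A (fun i => c * z i) = aff A z := by
  funext p
  unfold aff
  rw [aeval_smul hA, aeval_smul (num_homog p), mul_div_mul_left _ _ (pow_ne_zero _ hc)]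

theorem ht_le_sum [AdmissibleAbsValues K] {κ : Type} [Fintype κ] (u : κ → K) :
    logHeight u ≤ ∑ k, logHeight₁ (u k) := by
  classical
  have h1 : u = fun i => ∏ k, (if i = k then u k else 1) := by
    funext i
    rw [Finset.prod_ite_eq]
    simp
  have h2 := ht_prod_le (K := K) (Finset.univ : Finset κ) (fun k i => if i = k then u k else 1)
  rw [← h1] at h2
  refine h2.trans (Finset.sum_le_sum fun k _ => ?_)
  rw [logHeight₁_eq_logHeight]
  have h3 : (fun i => if i = k then u k else 1) = ![u k, 1] ∘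
      (fun i => if i = k then (0 : Fin 2) else 1) := by
    funext i
    simp only [Function.comp_apply]
    split_ifs <;> simp
  rw [h3]
  exact logHeight_comp_le _ _

theorem aff_height [AdmissibleAbsValues K] {A : MvPolynomial (Fin (N + 1)) K}
    (hA : A.IsHomogeneous (N + 1)) (hA0 : ∀ z : Fin (N + 1) → K, z ≠ 0 → eval z A ≠ 0) :
    ∃ C : ℝ, 1 ≤ C ∧ ∀ z : Fin (N + 1) → K, z ≠ 0 →
      logHeight z ≤ ∑ p, logHeight₁ (aff A z p) ∧
      ∑ p, logHeight₁ (aff A z p) ≤ C * (max 1 (logHeight z)) := by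
  classical
  have h1 : ∀ p : Fin (N + 1) × Fin (N + 1), ∃ C : ℝ, ∀ z : Fin (N + 1) → K,
      logHeight₁ (aff A z p) ≤ C + (N + 1 : ℕ) * logHeight z := by
    intro p
    obtain ⟨C, hC⟩ := logHeight_eval_le' (K := K) (p := ![num p, A]) (N := N + 1) (by
      intro i
      fin_cases i
      · exact num_homog p
      · exact hA)
    refine ⟨C, fun z => ?_⟩
    have h2 := hC z
    unfold aff
    rw [logHeight₁_div_eq_logHeight]
    have h3 : (fun j => eval z (![num p, A] j)) = ![aeval z (num p : MvPolynomial (Fin (N + 1)) K),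
        aeval z A] := by
      funext j
      fin_cases j <;> rfl
    rw [← h3]
    exact h2
  choose C hC using h1
  refine ⟨1 + ∑ p, (|C p| + (N + 1 : ℕ)), ?_, fun z hz => ⟨?_, ?_⟩⟩
  · have : 0 ≤ ∑ p, (|C p| + ((N + 1 : ℕ) : ℝ)) := Finset.sum_nonneg fun p _ => by positivity
    linarith
  · refine le_trans ?_ (ht_le_sum _)
    have h2 : logHeight (aff A z) = logHeight z + N * logHeight z := by
      have h3 : aff A z = (eval z A)⁻¹ • fun p : Fin (N + 1) × Fin (N + 1) => z p.1 * (z ^ N) p.2 := by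
        funext p
        unfold aff
        rw [aeval_num]
        simp only [Pi.smul_apply, smul_eq_mul, Pi.pow_apply]
        rw [div_eq_inv_mul]
        rfl
      rw [h3, logHeight_smul_eq_logHeight _ (inv_ne_zero (hA0 z hz)), logHeight_fun_mul_eq hz,
        logHeight_pow]
      intro h4
      obtain ⟨k, hk⟩ := Function.ne_iff.1 hz
      have := congrFun h4 k
      rw [Pi.pow_apply, Pi.zero_apply] at this
      exact pow_ne_zero _ hk this
    rw [h2]
    have := logHeight_nonneg z
    have : 0 ≤ (N : ℝ) * logHeight z := by positivity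
    linarith
  · have h2 : ∀ p, logHeight₁ (aff A z p) ≤ (|C p| + (N + 1 : ℕ)) * max 1 (logHeight z) := by
      intro p
      have h3 := hC p z
      have h4 : (1 : ℝ) ≤ max 1 (logHeight z) := le_max_left _ _
      have h5 : logHeight z ≤ max 1 (logHeight z) := le_max_right _ _
      have h6 : C p ≤ |C p| * max 1 (logHeight z) :=
        (le_abs_self _).trans (le_mul_of_one_le_right (abs_nonneg _) h4)
      have h7 : ((N + 1 : ℕ) : ℝ) * logHeight z ≤ (N + 1 : ℕ) * max 1 (logHeight z) :=
        mul_le_mul_of_nonneg_left h5 (Nat.cast_nonneg _)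
      rw [add_mul]
      linarith
    calc ∑ p, logHeight₁ (aff A z p) ≤ ∑ p, (|C p| + (N + 1 : ℕ)) * max 1 (logHeight z) :=
          Finset.sum_le_sum fun p _ => h2 p
      _ = (∑ p, (|C p| + ((N + 1 : ℕ) : ℝ))) * max 1 (logHeight z) := by rw [Finset.sum_mul]
      _ ≤ _ := by
          refine mul_le_mul_of_nonneg_right ?_ (zero_le_one.trans (le_max_left _ _))
          linarith

end Run7.h307
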