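import Mathlib

/-!
# Two algebraically dependent elements of a field: the relation, and an interpolation lemma
-/

set_option autoImplicit false

namespace Run7.h307

open Polynomial

variable {F Q : Type} [Field F] [Field Q] [Algebra F Q]

/-- the value at `X = x` (inner variable), `Y = y` (outer variable) -/
noncomputable def ev (F : Type) {Q : Type} [Field F] [Field Q] [Algebra F Q] (x y : Q) :
    F[X][X] →+* Q :=
  eval₂RingHom (aeval (R := F) x).toRingHom y

theorem ev_eq (x y : Q) (p : F[X][X]) :
    ev F x y p = ∑ i ∈ p.support, aeval x (p.coeff i) * y ^ i := by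
  rw [ev, coe_eval₂RingHom, eval₂_eq_sum, sum_def]
  rfl

theorem ev_C (x y : Q) (p : F[X]) : ev F x y (C p) = aeval x p := by
  rw [ev, coe_eval₂RingHom, eval₂_C]
  rfl

theorem ev_X (x y : Q) : ev F x y X = y := by
  rw [ev, coe_eval₂RingHom, eval₂_X]

theorem ev_swap (x y : Q) (p : F[X][X]) : ev F x y (Bivariate.swap p) = ev F y x p := by
  induction p using Polynomial.induction_on' with
  | add p q hp hq => rw [map_add, map_add, map_add, hp, hq]
  | monomial n a =>
    rw [Bivariate.swap_monomial, map_mul, ev_C, map_pow, aeval_X, ← C_mul_X_pow_eq_monomial,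
      map_mul, map_pow, ev_X, ev_C]
    congr 1
    rw [ev, coe_eval₂RingHom, eval₂_map, aeval_def]
    congr 1
    refine RingHom.ext fun r => ?_
    change aeval x (C r) = algebraMap F Q r
    rw [aeval_C]

/-- **The relation.** If `x` is transcendental and `x`, `y` are algebraically dependent, then the
relations between them are the multiples of one primitive polynomial. -/
theorem exists_rel (x y : Q) (hx : Transcendental F x) (R₀ : F[X][X]) (hR₀ : R₀ ≠ 0)
    (h0 : ev F x y R₀ = 0) :
    ∃ P : F[X][X], P ≠ 0 ∧ P.IsPrimitive ∧ ev F x y P = 0 ∧ ∀ R, ev F x y R = 0 → P ∣ R := by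
  classical
  let _inst : NormalizedGCDMonoid F[X] := Classical.arbitrary _
  let φ : F[X] →+* Q := (aeval (R := F) x).toRingHom
  have hφ : Function.Injective φ := transcendental_iff_injective.1 hx
  let L := FractionRing F[X]
  let ψ : L →+* Q := IsFractionRing.lift hφ
  have hψ : ∀ a : F[X], ψ (algebraMap F[X] L a) = φ a := fun a => IsFractionRing.lift_algebraMap hφ a
  let E : L[X] →+* Q := eval₂RingHom ψ y
  have hE : ∀ R : F[X][X], E (R.map (algebraMap F[X] L)) = ev F x y R := by
    intro R
    change eval₂ ψ y (R.map (algebraMap F[X] L)) = eval₂ φ y R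
    rw [eval₂_map]
    congr 1
    exact RingHom.ext hψ
  let g : L[X] := Submodule.IsPrincipal.generator (RingHom.ker E)
  have hg : ∀ R : L[X], E R = 0 ↔ g ∣ R := by
    intro R
    rw [← RingHom.mem_ker, Submodule.IsPrincipal.mem_iff_generator_dvd]
  have hinj : Function.Injective (algebraMap F[X] L) := IsFractionRing.injective _ _
  have hg0 : g ≠ 0 := by
    intro hg0
    have h1 : g ∣ R₀.map (algebraMap F[X] L) := (hg _).1 (by rw [hE, h0])
    rw [hg0, zero_dvd_iff] at h1
    exact hR₀ ((Polynomial.map_eq_zero_iff hinj).1 h1)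
  obtain ⟨b, hb, hbg⟩ := IsLocalization.integerNormalization_spec (nonZeroDivisors F[X]) g
  set G : F[X][X] := IsLocalization.integerNormalization (nonZeroDivisors F[X]) g with hG
  have hb0 : algebraMap F[X] L b ≠ 0 := fun h => nonZeroDivisors.ne_zero hb ((map_eq_zero_iff _ hinj).1 h)
  have hG0 : G ≠ 0 := by
    intro h
    rw [h, Polynomial.map_zero] at hbg
    have h2 : C (algebraMap F[X] L b) * g = 0 := by
      rw [← smul_eq_C_mul, algebraMap_smul]
      exact hbg.symm
    rcases mul_eq_zero.1 h2 with h3 | h3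
    · exact hb0 (C_eq_zero.1 h3)
    · exact hg0 h3
  let P := G.primPart
  have hGP : G = C G.content * P := G.eq_C_content_mul_primPart
  have hc0 : G.content ≠ 0 := fun h => hG0 (content_eq_zero_iff.1 h)
  have hevG : ev F x y G = 0 := by
    rw [← hE, hg]
    have h1 : G.map (algebraMap F[X] L) = C (algebraMap F[X] L b) * g := by
      rw [hbg, ← smul_eq_C_mul, algebraMap_smul]
    rw [h1]
    exact Dvd.intro_left _ rfl
  have hevP : ev F x y P = 0 := by
    rw [hGP, map_mul, ev_C, mul_eq_zero] at hevG
    refine hevG.resolve_left fun h => hc0 (hφ ?_)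
    rw [map_zero]
    exact h
  refine ⟨P, fun h => ?_, G.isPrimitive_primPart, hevP, fun R hR => ?_⟩
  · rw [h, mul_zero] at hGP
    exact hG0 hGP
  · refine IsPrimitive.dvd_of_fraction_map_dvd_fraction_map (K := L) G.isPrimitive_primPart ?_
    have h1 : g ∣ R.map (algebraMap F[X] L) := (hg _).1 (by rw [hE, hR])
    have h2 : G.map (algebraMap F[X] L) = C (algebraMap F[X] L b) * g := by
      rw [hbg, ← smul_eq_C_mul, algebraMap_smul]
    have h3 : P.map (algebraMap F[X] L) ∣ G.map (algebraMap F[X] L) :=
      Polynomial.map_dvd _ ⟨C G.content, by rw [mul_comm]; exact hGP⟩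
    have h4 : G.map (algebraMap F[X] L) ∣ g := by
      rw [h2]
      refine ⟨C (algebraMap F[X] L b)⁻¹, ?_⟩
      rw [mul_right_comm, ← C_mul, mul_inv_cancel₀ hb0, C_1, one_mul]
    exact (h3.trans h4).trans h1

end Run7.h307
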