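import Pool.Agent.Run7.h307.Clear

/-!
# Inverses modulo the relation, and the degrees of the swapped relation
-/

set_option autoImplicit false

namespace Run7.h307

open Polynomial

variable {F Q : Type} [Field F] [Field Q] [Algebra F Q]

/-- A nonzero value `s(x, y)` divides a nonzero polynomial value of the transcendental element. -/
theorem exists_bezout (x y : Q) (hx : Transcendental F x) (R₀ : F[X][X]) (hR₀ : R₀ ≠ 0)
    (h0 : ev F x y R₀ = 0) (s : F[X][X]) (hs : ev F x y s ≠ 0) :
    ∃ (T : F[X][X]) (R : F[X]), R ≠ 0 ∧ ev F x y T * ev F x y s = aeval x R := by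
  classical
  let φ : F[X] →+* Q := (aeval (R := F) x).toRingHom
  have hφ : Function.Injective φ := transcendental_iff_injective.1 hx
  let L := FractionRing F[X]
  let ψ : L →+* Q := IsFractionRing.lift hφ
  have hψ : ∀ a : F[X], ψ (algebraMap F[X] L a) = φ a := fun a => IsFractionRing.lift_algebraMap hφ a
  let E : L[X] →+* Q := eval₂RingHom ψ y
  have hE : ∀ R : F[X][X], E (R.map (algebraMap F[X] L)) = ev F x y R := by
    intro R
    change eval₂ ψ y (R.map (algebraMap F[X] L)) = eval₂ φ y R
    rw [eval₂_map]
    congr 1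
    exact RingHom.ext hψ
  have hinj : Function.Injective (algebraMap F[X] L) := IsFractionRing.injective _ _
  have hprime : (RingHom.ker E).IsPrime := RingHom.ker_isPrime E
  have hbot : RingHom.ker E ≠ ⊥ := by
    intro h
    have h1 : R₀.map (algebraMap F[X] L) ∈ RingHom.ker E := by
      rw [RingHom.mem_ker, hE, h0]
    rw [h, Ideal.mem_bot, Polynomial.map_eq_zero_iff hinj] at h1
    exact hR₀ h1
  have hmax : (RingHom.ker E).IsMaximal := hprime.isMaximal hbot
  have hs' : s.map (algebraMap F[X] L) ∉ RingHom.ker E := by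
    rw [RingHom.mem_ker, hE]
    exact hs
  obtain ⟨B, i, hi, hB⟩ := hmax.exists_inv hs'
  have h1 : E B * ev F x y s = 1 := by
    rw [← hE, ← map_mul, ← map_one E, ← hB, map_add, RingHom.mem_ker.1 hi, add_zero]
  obtain ⟨b, hb, hbB⟩ := IsLocalization.integerNormalization_spec (nonZeroDivisors F[X]) B
  set G : F[X][X] := IsLocalization.integerNormalization (nonZeroDivisors F[X]) B with hG
  have hG2 : G.map (algebraMap F[X] L) = C (algebraMap F[X] L b) * B := by
    rw [hbB, ← smul_eq_C_mul, algebraMap_smul]
  refine ⟨G, b, nonZeroDivisors.ne_zero hb, ?_⟩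
  rw [← hE, hG2, map_mul, mul_assoc, h1, mul_one]
  change eval₂ ψ y (C _) = _
  rw [eval₂_C, hψ]
  rfl

theorem coeff_coeff_swap (p : F[X][X]) (i j : ℕ) :
    ((Bivariate.swap p).coeff i).coeff j = (p.coeff j).coeff i := by
  induction p using Polynomial.induction_on' with
  | add p q hp hq => simp only [map_add, coeff_add, hp, hq]
  | monomial n a =>
    induction a using Polynomial.induction_on' with
    | add p q hp hq => simp only [map_add, coeff_add, hp, hq]
    | monomial m r =>
      rw [Bivariate.swap_monomial_monomial]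
      simp only [coeff_monomial]
      split_ifs <;> simp_all [coeff_monomial]

theorem natDegree_coeff_le (p : F[X][X]) (j : ℕ) :
    (p.coeff j).natDegree ≤ (Bivariate.swap p).natDegree := by
  rw [natDegree_le_iff_coeff_eq_zero]
  intro i hi
  rw [← coeff_coeff_swap, coeff_eq_zero_of_natDegree_lt hi, coeff_zero]

/-- The coefficients of a primitive bivariate polynomial generate the unit ideal. -/
theorem exists_unit_comb (p : F[X][X]) (hp : p.IsPrimitive) (m : ℕ) (hm : p.natDegree ≤ m) :
    ∃ A : Fin (m + 1) → F[X], ∑ i, A i * p.coeff i = 1 := by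
  classical
  let I : Ideal F[X] := Ideal.span (Set.range fun i : Fin (m + 1) => p.coeff i)
  let d := Submodule.IsPrincipal.generator I
  have hd : ∀ i, d ∣ p.coeff i := by
    intro i
    by_cases hi : i < m + 1
    · rw [← Submodule.IsPrincipal.mem_iff_generator_dvd]
      exact Ideal.subset_span ⟨⟨i, hi⟩, rfl⟩
    · rw [coeff_eq_zero_of_natDegree_lt (by omega)]
      exact dvd_zero _
  have hu : IsUnit d := hp d (C_dvd_iff_dvd_coeff _ _ |>.2 hd)
  have h1 : (1 : F[X]) ∈ I := by
    rw [Submodule.IsPrincipal.mem_iff_generator_dvd]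
    exact hu.dvd
  obtain ⟨A, hA⟩ := (Submodule.mem_span_range_iff_exists_fun F[X]).1 h1
  exact ⟨A, by simpa only [smul_eq_mul] using hA⟩

end Run7.h307
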