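import Pool.Agent.Run7.h307.Interp

/-!
# Clearing denominators
-/

set_option autoImplicit false

namespace Run7.h307

open MvPolynomial

variable {K Q : Type} [Field K] [Field Q] [Algebra K Q] {σ : Type}

/-- the field generated by the `β i` -/
abbrev FB (K : Type) {Q : Type} [Field K] [Field Q] [Algebra K Q] {σ : Type} (β : σ → Q) :
    IntermediateField K Q :=
  IntermediateField.adjoin K (Set.range β)

/-- a common denominator -/
theorem common_den {J : Type} [Finite J] (β : σ → Q) (c : J → FB K β) :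
    ∃ (ρ : MvPolynomial σ K) (r : J → MvPolynomial σ K), aeval β ρ ≠ 0 ∧
      ∀ j, aeval β (r j) = aeval β ρ * (c j : Q) := by
  classical
  have : Fintype J := Fintype.ofFinite J
  have h1 : ∀ j, ∃ r s : MvPolynomial σ K, aeval β s ≠ 0 ∧ aeval β r = aeval β s * (c j : Q) := by
    intro j
    obtain ⟨r, s, h⟩ := (IntermediateField.mem_adjoin_range_iff K β (c j : Q)).1 (c j).2
    by_cases hs : aeval β s = 0
    · refine ⟨0, 1, by simp, ?_⟩
      rw [h, hs]
      simp
    · exact ⟨r, s, hs, by rw [h, mul_div_cancel₀ _ hs]⟩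
  choose r s hs hr using h1
  refine ⟨∏ j, s j, fun j => r j * ∏ i ∈ Finset.univ.erase j, s i, ?_, fun j => ?_⟩
  · rw [map_prod]
    exact Finset.prod_ne_zero_iff.2 fun j _ => hs j
  · rw [map_mul, hr, ← Finset.mul_prod_erase Finset.univ s (Finset.mem_univ j), map_mul]
    ring

theorem degreeOf_rename_inl {τ : Type} (r : MvPolynomial σ K) (x : τ) :
    degreeOf (Sum.inr x) (rename (Sum.inl : σ → σ ⊕ τ) r) = 0 := by
  classical
  rw [← Nat.le_zero, degreeOf_le_iff]
  intro m hm
  by_contra h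
  have h1 : Sum.inr x ∈ (rename (Sum.inl : σ → σ ⊕ τ) r).vars := by
    rw [mem_vars_iff_mem_support]
    exact ⟨m, hm, Finsupp.mem_support_iff.2 (by omega)⟩
  obtain ⟨i, -, hi⟩ := mem_vars_rename _ _ h1
  exact absurd hi (by simp)

/-- **Clearing denominators** in bivariate polynomials. -/
theorem clear {κ : Type} [Finite κ] (β : σ → Q) (x y : Q) (dx dy : ℕ)
    (s : κ → Polynomial (Polynomial (FB K β))) (hy : ∀ k i, dy < i → (s k).coeff i = 0)
    (hx : ∀ k i, ((s k).coeff i).natDegree ≤ dx) :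
    ∃ (ρ : MvPolynomial σ K) (H : κ → MvPolynomial (σ ⊕ Fin 2) K), aeval β ρ ≠ 0 ∧
      (∀ k, aeval (Sum.elim β ![x, y]) (H k) = aeval β ρ * ev (FB K β) x y (s k)) ∧
      (∀ k, degreeOf (Sum.inr 0) (H k) ≤ dx) ∧ ∀ k, degreeOf (Sum.inr 1) (H k) ≤ dy := by
  classical
  obtain ⟨ρ, r, hρ, hr⟩ := common_den β
    (fun q : κ × Fin (dy + 1) × Fin (dx + 1) => ((s q.1).coeff q.2.1).coeff q.2.2)
  let H : κ → MvPolynomial (σ ⊕ Fin 2) K := fun k => ∑ i : Fin (dy + 1), ∑ j : Fin (dx + 1),
    rename Sum.inl (r (k, i, j)) * (X (Sum.inr 1) ^ (i : ℕ) * X (Sum.inr 0) ^ (j : ℕ))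
  refine ⟨ρ, H, hρ, fun k => ?_, fun k => ?_, fun k => ?_⟩
  · have h1 : ev (FB K β) x y (s k) = ∑ i : Fin (dy + 1), ∑ j : Fin (dx + 1),
        ((((s k).coeff i).coeff j : FB K β) : Q) * (y ^ (i : ℕ) * x ^ (j : ℕ)) := by
      have h2 : (s k) = ∑ i ∈ Finset.range (dy + 1), Polynomial.monomial i ((s k).coeff i) := by
        refine Polynomial.as_sum_range' _ _ ?_
        refine Nat.lt_succ_of_le ?_
        rw [Polynomial.natDegree_le_iff_coeff_eq_zero]
        exact fun i hi => hy k i hi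
      conv_lhs => rw [h2]
      rw [map_sum, Finset.sum_range]
      refine Finset.sum_congr rfl fun i _ => ?_
      rw [← Polynomial.C_mul_X_pow_eq_monomial, map_mul, map_pow, ev_X, ev_C]
      have h3 : (s k).coeff i = ∑ j ∈ Finset.range (dx + 1),
          Polynomial.monomial j (((s k).coeff i).coeff j) :=
        Polynomial.as_sum_range' _ _ (Nat.lt_succ_of_le (hx k i))
      conv_lhs => rw [h3]
      rw [map_sum, Finset.sum_range, Finset.sum_mul]
      refine Finset.sum_congr rfl fun j _ => ?_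
      rw [Polynomial.aeval_monomial]
      change ((((s k).coeff i).coeff j : FB K β) : Q) * x ^ (j : ℕ) * y ^ (i : ℕ) = _
      ring
    rw [h1, Finset.mul_sum]
    simp only [H, map_sum]
    refine Finset.sum_congr rfl fun i _ => ?_
    rw [Finset.mul_sum]
    refine Finset.sum_congr rfl fun j _ => ?_
    rw [map_mul, aeval_rename]
    have h4 : (Sum.elim β ![x, y]) ∘ (Sum.inl : σ → σ ⊕ Fin 2) = β := by
      funext i
      rfl
    rw [h4, hr (k, i, j)]
    simp only [map_mul, map_pow, aeval_X, Sum.elim_inr, Matrix.cons_val_one, Matrix.cons_val_zero]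
    ring
  · refine (degreeOf_sum_le _ _ _).trans (Finset.sup_le fun i _ => ?_)
    refine (degreeOf_sum_le _ _ _).trans (Finset.sup_le fun j _ => ?_)
    refine (degreeOf_mul_le _ _ _).trans ?_
    rw [degreeOf_rename_inl, zero_add]
    refine (degreeOf_mul_le _ _ _).trans ?_
    rw [degreeOf_X_pow_of_ne _ (by simp), zero_add, degreeOf_X_self_pow]
    exact Nat.lt_succ_iff.1 j.2
  · refine (degreeOf_sum_le _ _ _).trans (Finset.sup_le fun i _ => ?_)
    refine (degreeOf_sum_le _ _ _).trans (Finset.sup_le fun j _ => ?_)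
    refine (degreeOf_mul_le _ _ _).trans ?_
    rw [degreeOf_rename_inl, zero_add]
    refine (degreeOf_mul_le _ _ _).trans ?_
    rw [degreeOf_X_pow_of_ne (j := Sum.inr 0) _ (by simp), add_zero, degreeOf_X_self_pow]
    exact Nat.lt_succ_iff.1 i.2

end Run7.h307
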