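import Mathlib

/-!
# Growth of sequences with almost proportional consecutive terms
-/

set_option autoImplicit false

namespace Run7.h307

open Filter Topology

/-- exponential bounds -/
theorem tendsto_of_bounds (x : ℕ → ℝ) (α : ℝ) (hα : 0 < α) (hx : ∀ n, 0 ≤ x n)
    (hup : ∀ θ, α < θ → ∃ C : ℝ, ∀ᶠ n in atTop, x n ≤ C * θ ^ n)
    (hlow : ∀ θ, 0 < θ → θ < α → ∃ c : ℝ, 0 < c ∧ ∀ᶠ n in atTop, c * θ ^ n ≤ x n) :
    Tendsto (fun n : ℕ => x n ^ (1 / (n : ℝ))) atTop (𝓝 α) := by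
  have hroot : ∀ c : ℝ, 0 < c → Tendsto (fun n : ℕ => c ^ (1 / (n : ℝ))) atTop (𝓝 1) := by
    intro c hc
    have h1 : Tendsto (fun n : ℕ => 1 / (n : ℝ)) atTop (𝓝 0) := tendsto_one_div_atTop_nhds_zero_nat
    have h2 := (Real.continuousAt_const_rpow hc.ne' (b := 0)).tendsto.comp h1
    rw [Real.rpow_zero] at h2
    exact h2
  have hpow : ∀ θ : ℝ, 0 < θ → ∀ n : ℕ, n ≠ 0 → (θ ^ n) ^ (1 / (n : ℝ)) = θ := by
    intro θ hθ n hn
    rw [one_div]
    exact Real.pow_rpow_inv_natCast hθ.le hn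
  rw [tendsto_order]
  constructor
  · intro r hr
    by_cases hr0 : r < 0
    · exact Eventually.of_forall fun n => lt_of_lt_of_le hr0 (Real.rpow_nonneg (hx n) _)
    obtain ⟨θ, hθ1, hθ2⟩ := exists_between hr
    have hθ : 0 < θ := lt_of_le_of_lt (not_lt.1 hr0) hθ1
    obtain ⟨c, hc, h⟩ := hlow θ hθ hθ2
    have h1 : Tendsto (fun n : ℕ => c ^ (1 / (n : ℝ)) * θ) atTop (𝓝 (1 * θ)) :=
      (hroot c hc).mul_const θ
    rw [one_mul] at h1
    filter_upwards [h, h1.eventually_const_lt hθ1, eventually_ne_atTop 0] with n h2 h3 h4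
    refine h3.trans_le ?_
    calc c ^ (1 / (n : ℝ)) * θ = c ^ (1 / (n : ℝ)) * (θ ^ n) ^ (1 / (n : ℝ)) := by
          rw [hpow θ hθ n h4]
      _ = (c * θ ^ n) ^ (1 / (n : ℝ)) := by
          rw [Real.mul_rpow hc.le (pow_pos hθ n).le]
      _ ≤ x n ^ (1 / (n : ℝ)) := by
          refine Real.rpow_le_rpow (by positivity) h2 (by positivity)
  · intro r hr
    obtain ⟨θ, hθ1, hθ2⟩ := exists_between hr
    have hθ : 0 < θ := hα.trans hθ1
    obtain ⟨C, h⟩ := hup θ hθ1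
    have hC' : (0 : ℝ) < max C 1 := lt_max_of_lt_right one_pos
    have h1 : Tendsto (fun n : ℕ => (max C 1) ^ (1 / (n : ℝ)) * θ) atTop (𝓝 (1 * θ)) :=
      (hroot _ hC').mul_const θ
    rw [one_mul] at h1
    filter_upwards [h, h1.eventually_lt_const hθ2, eventually_ne_atTop 0] with n h2 h3 h4
    refine lt_of_le_of_lt ?_ h3
    calc x n ^ (1 / (n : ℝ)) ≤ (max C 1 * θ ^ n) ^ (1 / (n : ℝ)) := by
          refine Real.rpow_le_rpow (hx n) (h2.trans ?_) (by positivity)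
          exact mul_le_mul_of_nonneg_right (le_max_left _ _) (pow_pos hθ n).le
      _ = (max C 1) ^ (1 / (n : ℝ)) * (θ ^ n) ^ (1 / (n : ℝ)) := by
          rw [Real.mul_rpow hC'.le (pow_pos hθ n).le]
      _ = (max C 1) ^ (1 / (n : ℝ)) * θ := by rw [hpow θ hθ n h4]

theorem upper_of_tendsto (x : ℕ → ℝ) (α : ℝ) (hx : ∀ n, 0 ≤ x n)
    (h : Tendsto (fun n : ℕ => x n ^ (1 / (n : ℝ))) atTop (𝓝 α)) (θ : ℝ) (hθ : α < θ) :
    ∀ᶠ n in atTop, x n ≤ θ ^ n := by
  filter_upwards [h.eventually_lt_const hθ, eventually_ne_atTop 0] with n h1 h2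
  have h3 : (x n ^ (1 / (n : ℝ))) ^ n = x n := by
    rw [one_div]
    exact Real.rpow_inv_natCast_pow (hx n) h2
  rw [← h3]
  exact pow_le_pow_left₀ (Real.rpow_nonneg (hx n) _) h1.le n

theorem lower_of_tendsto (x : ℕ → ℝ) (α : ℝ) (hx : ∀ n, 0 ≤ x n)
    (h : Tendsto (fun n : ℕ => x n ^ (1 / (n : ℝ))) atTop (𝓝 α)) (θ : ℝ) (hθ0 : 0 < θ)
    (hθ : θ < α) : ∀ᶠ n in atTop, θ ^ n ≤ x n := by
  filter_upwards [h.eventually_const_lt hθ, eventually_ne_atTop 0] with n h1 h2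
  have h3 : (x n ^ (1 / (n : ℝ))) ^ n = x n := by
    rw [one_div]
    exact Real.rpow_inv_natCast_pow (hx n) h2
  rw [← h3]
  exact pow_le_pow_left₀ hθ0.le h1.le n

theorem one_le_of_tendsto (x : ℕ → ℝ) (α : ℝ) (hx : ∀ n, 1 ≤ x n)
    (h : Tendsto (fun n : ℕ => x n ^ (1 / (n : ℝ))) atTop (𝓝 α)) : 1 ≤ α :=
  ge_of_tendsto' h fun n => Real.one_le_rpow (hx n) (by positivity)

/-- comparable sequences -/
theorem tendsto_of_comparable (x t : ℕ → ℝ) (α C : ℝ) (hC : 0 < C) (ht : ∀ n, 1 ≤ t n)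
    (hx : ∀ n, 0 ≤ x n) (h1 : ∀ᶠ n in atTop, x n ≤ C * t n) (h2 : ∀ᶠ n in atTop, t n ≤ C * x n)
    (h : Tendsto (fun n : ℕ => t n ^ (1 / (n : ℝ))) atTop (𝓝 α)) :
    Tendsto (fun n : ℕ => x n ^ (1 / (n : ℝ))) atTop (𝓝 α) := by
  have hα := one_le_of_tendsto t α ht h
  have ht0 : ∀ n, 0 ≤ t n := fun n => zero_le_one.trans (ht n)
  refine tendsto_of_bounds x α (by linarith) hx (fun θ hθ => ?_) (fun θ hθ0 hθ => ?_)
  · refine ⟨C, ?_⟩
    filter_upwards [h1, upper_of_tendsto t α ht0 h θ hθ] with n h3 h4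
    exact h3.trans (mul_le_mul_of_nonneg_left h4 hC.le)
  · refine ⟨C⁻¹, inv_pos.2 hC, ?_⟩
    filter_upwards [h2, lower_of_tendsto t α ht0 h θ hθ0 hθ] with n h3 h4
    rw [inv_mul_le_iff₀ hC]
    exact h4.trans h3

/-- slow fibre coordinates -/
theorem growth_slow (e c : ℕ → ℝ) (β : ℝ) (he : ∀ n, 1 ≤ e n) (hc : ∀ n, 0 ≤ c n)
    (hβ : Tendsto (fun n : ℕ => e n ^ (1 / (n : ℝ))) atTop (𝓝 β))
    (h : ∀ θ, β < θ → ∃ B : ℝ, ∀ᶠ n in atTop, c n ≤ B * θ ^ n) :
    Tendsto (fun n : ℕ => (c n + e n) ^ (1 / (n : ℝ))) atTop (𝓝 β) := by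
  have hβ1 := one_le_of_tendsto e β he hβ
  have he0 : ∀ n, 0 ≤ e n := fun n => zero_le_one.trans (he n)
  refine tendsto_of_bounds _ β (by linarith) (fun n => add_nonneg (hc n) (he0 n))
    (fun θ hθ => ?_) (fun θ hθ0 hθ => ?_)
  · obtain ⟨B, hB⟩ := h θ hθ
    refine ⟨B + 1, ?_⟩
    filter_upwards [hB, upper_of_tendsto e β he0 hβ θ hθ] with n h1 h2
    linarith
  · refine ⟨1, one_pos, ?_⟩
    filter_upwards [lower_of_tendsto e β he0 hβ θ hθ0 hθ] with n h2
    have := hc n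
    linarith

/-- **The growth lemma.** -/
theorem growth (e c : ℕ → ℝ) (β : ℝ) (he : ∀ n, 1 ≤ e n) (hc : ∀ n, 0 ≤ c n)
    (hβ : Tendsto (fun n : ℕ => e n ^ (1 / (n : ℝ))) atTop (𝓝 β)) (a b : ℕ) (ha : 0 < a)
    (hb : 0 < b)
    (h : ∀ ε : ℝ, 0 < ε → ∃ C : ℝ, 0 ≤ C ∧ ∀ᶠ n in atTop,
      (a : ℝ) * c (n + 1) ≤ (b + ε) * c n + C * e n ∧
      (b : ℝ) * c n ≤ (a + ε) * c (n + 1) + C * e n) :
    ∃ α : ℝ, Tendsto (fun n : ℕ => (c n + e n) ^ (1 / (n : ℝ))) atTop (𝓝 α) ∧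
      (α = β ∨ α = b / a) := by
  have hβ1 := one_le_of_tendsto e β he hβ
  have he0 : ∀ n, 0 ≤ e n := fun n => zero_le_one.trans (he n)
  have ha' : (0 : ℝ) < a := by exact_mod_cast ha
  have hb' : (0 : ℝ) < b := by exact_mod_cast hb
  -- the upper bound
  have hupper : ∀ θ : ℝ, β < θ → (b : ℝ) / a < θ → ∃ B : ℝ, ∀ᶠ n in atTop, c n ≤ B * θ ^ n := by
    intro θ h1 h2
    obtain ⟨θ', h3, h4⟩ := exists_between (max_lt h1 h2)
    have h5 : β < θ' := (le_max_left _ _).trans_lt h3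
    have h6 : (b : ℝ) / a < θ' := (le_max_right _ _).trans_lt h3
    have h7 : 0 < a * θ' - b := by
      rw [div_lt_iff₀ ha'] at h6
      linarith
    obtain ⟨C, hC0, hC⟩ := h _ h7
    obtain ⟨n₀, hn₀⟩ := eventually_atTop.1 (hC.and (upper_of_tendsto e β he0 hβ θ' h5))
    have hθ0 : 0 < θ := by linarith
    have hθ'0 : 0 < θ' := by linarith
    refine ⟨max (c n₀ / θ ^ n₀) (C / a / (θ - θ')), eventually_atTop.2 ⟨n₀, fun n hn => ?_⟩⟩
    induction n, hn using Nat.le_induction with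
    | base =>
      calc c n₀ = c n₀ / θ ^ n₀ * θ ^ n₀ := by field_simp
        _ ≤ _ := mul_le_mul_of_nonneg_right (le_max_left _ _) (pow_pos hθ0 _).le
    | succ n hn ih =>
      set B := max (c n₀ / θ ^ n₀) (C / a / (θ - θ'))
      have h8 := (hn₀ n hn).1.1
      have h9 := (hn₀ n hn).2
      have h10 : θ' ^ n ≤ θ ^ n := pow_le_pow_left₀ hθ'0.le h4.le n
      have h11 : C / a ≤ B * (θ - θ') := by
        have : C / a / (θ - θ') ≤ B := le_max_right _ _
        rwa [div_le_iff₀ (by linarith)] at this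
      have h12 : c (n + 1) ≤ θ' * c n + C / a * e n := by
        have h13 : (a : ℝ) * c (n + 1) ≤ a * (θ' * c n + C / a * e n) := by
          have : (a : ℝ) * (θ' * c n + C / a * e n) = (b + (a * θ' - b)) * c n + C * e n := by
            field_simp
            ring
          rw [this]
          exact h8
        exact le_of_mul_le_mul_left h13 ha'
      have hpos : 0 < θ ^ n := pow_pos hθ0 n
      calc c (n + 1) ≤ θ' * c n + C / a * e n := h12
        _ ≤ θ' * (B * θ ^ n) + C / a * θ ^ n := by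
            have h14 := mul_le_mul_of_nonneg_left ih hθ'0.le
            have h15 : C / a * e n ≤ C / a * θ ^ n :=
              mul_le_mul_of_nonneg_left (h9.trans h10) (by positivity)
            linarith
        _ ≤ B * θ ^ (n + 1) := by
            rw [pow_succ]
            nlinarith
  by_cases hA : ∀ θ, β < θ → ∃ B : ℝ, ∀ᶠ n in atTop, c n ≤ B * θ ^ n
  · exact ⟨β, growth_slow e c β he hc hβ hA, Or.inl rfl⟩
  · push Not at hA
    obtain ⟨θ₁, hθ₁, hB⟩ := hA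
    have hlam : θ₁ ≤ (b : ℝ) / a := by
      by_contra h1
      obtain ⟨B, h2⟩ := hupper θ₁ hθ₁ (not_le.1 h1)
      obtain ⟨n, hn1, hn2⟩ := ((hB B).and_eventually h2).exists
      exact absurd hn2 (not_le.2 hn1)
    obtain ⟨θ₂, h21, h22⟩ := exists_between hθ₁
    obtain ⟨θ₃, h31, h32⟩ := exists_between h21
    have hθ₃0 : 0 < θ₃ := by linarith
    have hθ₂0 : 0 < θ₂ := by linarith
    refine ⟨(b : ℝ) / a, ?_, Or.inr rfl⟩
    refine tendsto_of_bounds _ _ (by positivity) (fun n => add_nonneg (hc n) (he0 n))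
      (fun θ hθ => ?_) (fun θ hθ0 hθ => ?_)
    · have hβθ : β < θ := by linarith
      obtain ⟨B, h1⟩ := hupper θ hβθ hθ
      refine ⟨B + 1, ?_⟩
      filter_upwards [h1, upper_of_tendsto e β he0 hβ θ hβθ] with n h1 h2
      linarith
    · obtain ⟨μ, hμ1, hμ2⟩ := exists_between (max_lt hθ (h22.trans_le hlam))
      have hμθ : θ < μ := (le_max_left _ _).trans_lt hμ1
      have hμθ₂ : θ₂ < μ := (le_max_right _ _).trans_lt hμ1
      have hμ0 : 0 < μ := by linarith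
      have hε : 0 < (b : ℝ) / μ - a := by
        rw [lt_div_iff₀ ha'] at hμ2
        rw [sub_pos, lt_div_iff₀ hμ0]
        linarith
      obtain ⟨C, hC0, hC⟩ := h _ hε
      obtain ⟨n₀, hn₀⟩ := eventually_atTop.1 (hC.and (upper_of_tendsto e β he0 hβ θ₃ h31))
      set K : ℝ := (μ * C / b) / (μ - θ₃) with hK
      have hμθ₃ : 0 < μ - θ₃ := by linarith
      have hK0 : 0 ≤ K := by positivity
      have hKe : K * (μ - θ₃) = μ * C / b := by rw [hK]; field_simp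
      have hstep : ∀ n, n₀ ≤ n → μ * (c n - K * θ₃ ^ n) ≤ c (n + 1) - K * θ₃ ^ (n + 1) := by
        intro n hn
        have h8 := (hn₀ n hn).1.2
        have h9 := (hn₀ n hn).2
        have h10 : μ * c n ≤ c (n + 1) + μ * C / b * e n := by
          have h11 : (b : ℝ) * (μ * c n) ≤ b * (c (n + 1) + μ * C / b * e n) := by
            have h12 : (b : ℝ) * (c (n + 1) + μ * C / b * e n) =
                μ * (((a : ℝ) + (b / μ - a)) * c (n + 1) + C * e n) := by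
              field_simp
              ring
            rw [h12]
            have := mul_le_mul_of_nonneg_left h8 hμ0.le
            linarith
          exact le_of_mul_le_mul_left h11 hb'
        have h13 : μ * C / b * e n ≤ μ * C / b * θ₃ ^ n :=
          mul_le_mul_of_nonneg_left h9 (by positivity)
        have h14 : μ * C / b * θ₃ ^ n = K * (μ - θ₃) * θ₃ ^ n := by rw [hKe]
        rw [pow_succ]
        nlinarith
      obtain ⟨n₁, hn₁, hcn₁⟩ : ∃ n₁, n₀ ≤ n₁ ∧ K * θ₂ ^ n₁ < c n₁ := by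
        obtain ⟨n, hn1, hn2⟩ := ((hB K).and_eventually (eventually_ge_atTop n₀)).exists
        refine ⟨n, hn2, lt_of_le_of_lt ?_ hn1⟩
        exact mul_le_mul_of_nonneg_left (pow_le_pow_left₀ hθ₂0.le h22.le n) hK0
      have hd : 0 < c n₁ - K * θ₃ ^ n₁ := by
        have := mul_le_mul_of_nonneg_left (pow_le_pow_left₀ hθ₃0.le h32.le n₁) hK0
        linarith
      refine ⟨(c n₁ - K * θ₃ ^ n₁) / μ ^ n₁, by positivity, eventually_atTop.2 ⟨n₁, ?_⟩⟩
      intro n hn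
      have hmain : (c n₁ - K * θ₃ ^ n₁) / μ ^ n₁ * μ ^ n ≤ c n - K * θ₃ ^ n := by
        induction n, hn using Nat.le_induction with
        | base => rw [div_mul_cancel₀ _ (pow_pos hμ0 _).ne']
        | succ n hn ih =>
          refine le_trans ?_ (hstep n (hn₁.trans hn))
          rw [pow_succ, ← mul_assoc, mul_comm _ μ]
          exact mul_le_mul_of_nonneg_left ih hμ0.le
      have h15 : (c n₁ - K * θ₃ ^ n₁) / μ ^ n₁ * θ ^ n ≤
          (c n₁ - K * θ₃ ^ n₁) / μ ^ n₁ * μ ^ n :=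
        mul_le_mul_of_nonneg_left (pow_le_pow_left₀ hθ0.le hμθ.le n) (by positivity)
      have h16 : 0 ≤ K * θ₃ ^ n := by positivity
      have h17 := he0 n
      linarith

end Run7.h307
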