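import Pool.Agent.Run7.h307.Qp2
import Pool.Agent.Run7.h307.Growth

/-!
# The affine core: orbits over a moving base point, relative dimension at most one
-/

set_option autoImplicit false

namespace Run7.h307

open Height Filter Topology

section

open Polynomial

variable {F Q : Type} [Field F] [Field Q] [Algebra F Q]

theorem exists_R0 (s t : Q) (h : ¬ AlgebraicIndependent F ![s, t]) :
    ∃ R₀ : F[X][X], R₀ ≠ 0 ∧ ev F s t R₀ = 0 := by
  rw [algebraicIndependent_iff] at h
  push Not at h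
  obtain ⟨p, hp0, hp⟩ := h
  let Φ : MvPolynomial (Fin 2) F →ₐ[F] F[X][X] := MvPolynomial.aeval ![C X, X]
  let Ψ : F[X][X] →+* MvPolynomial (Fin 2) F :=
    eval₂RingHom (Polynomial.aeval (R := F) (MvPolynomial.X 0)).toRingHom (MvPolynomial.X 1)
  have h1 : ∀ q, Ψ (Φ q) = q := by
    intro q
    induction q using MvPolynomial.induction_on with
    | C a =>
      rw [← MvPolynomial.algebraMap_eq, AlgHom.commutes]
      change eval₂RingHom _ _ (C (C a)) = _
      rw [coe_eval₂RingHom, eval₂_C]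
      change Polynomial.aeval (MvPolynomial.X 0) (C a) = _
      rw [Polynomial.aeval_C]
    | add p q hp hq => rw [map_add, map_add, hp, hq]
    | mul_X p i hp =>
      rw [map_mul, map_mul, hp]
      congr 1
      rw [MvPolynomial.aeval_X]
      fin_cases i
      · change eval₂RingHom _ _ (C X) = _
        rw [coe_eval₂RingHom, eval₂_C]
        change Polynomial.aeval (MvPolynomial.X 0) X = _
        rw [Polynomial.aeval_X]
        rfl
      · change eval₂RingHom _ _ X = _
        rw [coe_eval₂RingHom, eval₂_X]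
        rfl
  refine ⟨Φ p, fun h2 => hp ?_, ?_⟩
  · rw [← h1 p, h2, map_zero]
  · rw [← hp0]
    have h3 : ∀ q, ev F s t (Φ q) = MvPolynomial.aeval ![s, t] q := by
      intro q
      induction q using MvPolynomial.induction_on with
      | C a =>
        rw [← MvPolynomial.algebraMap_eq, AlgHom.commutes, AlgHom.commutes]
        change ev F s t (C (C a)) = _
        rw [ev_C, aeval_C]
      | add p q hp hq => rw [map_add, map_add, map_add, hp, hq]
      | mul_X p i hp =>
        rw [map_mul, map_mul, map_mul, hp]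
        congr 1
        rw [MvPolynomial.aeval_X, MvPolynomial.aeval_X]
        fin_cases i
        · change ev F s t (C X) = s
          rw [ev_C, aeval_X]
        · change ev F s t X = t
          rw [ev_X]
    exact h3 p

end

variable {K Q : Type} [Field K] [AdmissibleAbsValues K] [Field Q] [Algebra K Q] {σ κ : Type}
  [Fintype σ] [Fintype κ]

/-- the size of all the coordinates -/
noncomputable def Tn (βn : ℕ → σ → K) (yn : ℕ → κ → K) (n : ℕ) : ℝ :=
  En βn n + ∑ k, logHeight₁ (yn n k)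

theorem core_compare (βn : ℕ → σ → K) (yn : ℕ → κ → K) (t : ℕ → ℝ) (ht : ∀ n, 1 ≤ t n)
    (ht2 : ∀ n, t n ≤ Tn βn yn n) (hE : ∀ n, En βn n ≤ t n) (α : ℝ)
    (h : ∀ k, ∃ C : ℝ, 0 ≤ C ∧ ∀ᶠ n in atTop, logHeight₁ (yn n k) ≤ C * t n)
    (hα : Tendsto (fun n : ℕ => t n ^ (1 / (n : ℝ))) atTop (𝓝 α)) :
    Tendsto (fun n : ℕ => Tn βn yn n ^ (1 / (n : ℝ))) atTop (𝓝 α) := by
  choose C hC0 hC using h
  have hsum : 0 ≤ ∑ k, C k := Finset.sum_nonneg fun k _ => hC0 k
  refine tendsto_of_comparable (Tn βn yn) t α (1 + ∑ k, C k) (by linarith) ht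
    (fun n => ?_) ?_ ?_ hα
  · have := ht n
    have := ht2 n
    linarith
  · filter_upwards [eventually_all.2 hC] with n hn
    have h1 : ∑ k, logHeight₁ (yn n k) ≤ (∑ k, C k) * t n := by
      rw [Finset.sum_mul]
      exact Finset.sum_le_sum fun k _ => hn k
    have h2 := hE n
    unfold Tn
    linarith
  · refine Eventually.of_forall fun n => ?_
    have h1 := ht n
    have h2 := ht2 n
    nlinarith

/-- **The affine core.** -/
theorem core (β : σ → Q) (y y' : κ → Q) (βn : ℕ → σ → K) (yn : ℕ → κ → K)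
    (hS : Spec atTop (Sum.elim β (Sum.elim y y'))
      fun n => Sum.elim (βn n) (Sum.elim (yn n) (yn (n + 1))))
    (hG : Gen atTop β βn)
    (hT : ∀ k k', ¬ AlgebraicIndependent (FB K β) ![y k, y k'])
    (hT' : ∀ k, ¬ AlgebraicIndependent (FB K β) ![y k, y' k]) (b : ℝ)
    (hb : Tendsto (fun n : ℕ => En βn n ^ (1 / (n : ℝ))) atTop (𝓝 b)) :
    ∃ α : ℝ, Tendsto (fun n : ℕ => Tn βn yn n ^ (1 / (n : ℝ))) atTop (𝓝 α) ∧
      (α = b ∨ ∃ p q : ℕ, 0 < p ∧ 0 < q ∧ α = p / q) := by
  classical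
  have hE := one_le_En βn
  have hh : ∀ n k, 0 ≤ logHeight₁ (yn n k) := fun n k => zero_le_logHeight₁ _
  -- restriction of the relations to two of the functions
  have hS2 : ∀ i j : κ ⊕ κ, Spec atTop (Sum.elim β ![Sum.elim y y' i, Sum.elim y y' j])
      fun n => Sum.elim (βn n) ![Sum.elim (yn n) (yn (n + 1)) i,
        Sum.elim (yn n) (yn (n + 1)) j] := by
    intro i j
    have h1 := hS.comp (Sum.map id (![i, j] : Fin 2 → κ ⊕ κ))
    have e1 : (Sum.elim β (Sum.elim y y')) ∘ (Sum.map id (![i, j] : Fin 2 → κ ⊕ κ)) =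
        Sum.elim β ![Sum.elim y y' i, Sum.elim y y' j] := by
      funext a
      rcases a with a | a
      · rfl
      · fin_cases a <;> rfl
    have e2 : (fun n => (Sum.elim (βn n) (Sum.elim (yn n) (yn (n + 1)))) ∘
        (Sum.map id (![i, j] : Fin 2 → κ ⊕ κ))) = fun n => Sum.elim (βn n)
          ![Sum.elim (yn n) (yn (n + 1)) i, Sum.elim (yn n) (yn (n + 1)) j] := by
      funext n a
      rcases a with a | a
      · rfl
      · fin_cases a <;> rfl
    rw [e1, e2] at h1
    exact h1
  have hTn : ∀ n, En βn n ≤ Tn βn yn n := fun n => by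
    have := Finset.sum_nonneg fun k (_ : k ∈ (Finset.univ : Finset κ)) => hh n k
    unfold Tn
    linarith
  by_cases hA : ∀ k, IsAlgebraic (FB K β) (y k)
  · refine ⟨b, core_compare βn yn (En βn) hE hTn (fun n => le_rfl) b (fun k => ?_) hb, Or.inl rfl⟩
    exact alg_base β (y k) βn (fun n => yn n k) (hS2 (Sum.inl k) (Sum.inl k)) hG (hA k)
  · push Not at hA
    obtain ⟨k₀, hk₀⟩ := hA
    -- the conclusion follows from the growth of the coordinate `k₀`
    have key : ∀ α : ℝ, Tendsto (fun n : ℕ => (logHeight₁ (yn n k₀) + En βn n) ^ (1 / (n : ℝ)))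
        atTop (𝓝 α) → Tendsto (fun n : ℕ => Tn βn yn n ^ (1 / (n : ℝ))) atTop (𝓝 α) := by
      intro α hα
      refine core_compare βn yn (fun n => logHeight₁ (yn n k₀) + En βn n) (fun n => ?_)
        (fun n => ?_) (fun n => ?_) α (fun k => ?_) hα
      · have := hE n
        have := hh n k₀
        linarith
      · have := Finset.single_le_sum (f := fun k => logHeight₁ (yn n k))
          (fun k _ => hh n k) (Finset.mem_univ k₀)
        unfold Tn
        linarith
      · have := hh n k₀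
        linarith
      · obtain ⟨R₀, hR₀, h0⟩ := exists_R0 _ _ (hT k₀ k)
        exact alg_over β (y k₀) (y k) βn (fun n => yn n k₀) (fun n => yn n k)
          (hS2 (Sum.inl k₀) (Sum.inl k)) hG hk₀ R₀ hR₀ h0
    by_cases hB : IsAlgebraic (FB K β) (y' k₀)
    · refine ⟨b, key b ?_, Or.inl rfl⟩
      refine growth_slow _ _ b hE (fun n => hh n k₀) hb fun θ hθ => ?_
      obtain ⟨C, hC0, hC⟩ := alg_base β (y' k₀) βn (fun n => yn (n + 1) k₀)
        (hS2 (Sum.inr k₀) (Sum.inr k₀)) hG hB
      have hb1 := one_le_of_tendsto _ b hE hb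
      have hθ0 : 0 < θ := by linarith
      refine ⟨C / θ, ?_⟩
      have h1 : ∀ᶠ n in atTop, logHeight₁ (yn (n + 1) k₀) ≤ C / θ * θ ^ (n + 1) := by
        filter_upwards [hC, upper_of_tendsto _ b (fun n => zero_le_one.trans (hE n)) hb θ hθ]
          with n h2 h3
        refine h2.trans ((mul_le_mul_of_nonneg_left h3 hC0).trans (le_of_eq ?_))
        rw [pow_succ]
        field_simp
      exact (eventually_atTop.1 h1).elim fun n₀ hn₀ => eventually_atTop.2 ⟨n₀ + 1, fun n hn => by
        obtain ⟨m, rfl⟩ : ∃ m, n = m + 1 := ⟨n - 1, by omega⟩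
        exact hn₀ m (by omega)⟩
    · obtain ⟨R₀, hR₀, h0⟩ := exists_R0 _ _ (hT' k₀)
      obtain ⟨p, q, hp, hq, hpq⟩ := qp β (y k₀) (y' k₀) βn (fun n => yn n k₀)
        (fun n => yn (n + 1) k₀) (hS2 (Sum.inl k₀) (Sum.inr k₀)) hG hk₀ hB R₀ hR₀ h0
      obtain ⟨α, hα, h1⟩ := growth (En βn) (fun n => logHeight₁ (yn n k₀)) b hE
        (fun n => hh n k₀) hb p q hp hq hpq
      exact ⟨α, key α hα, h1.imp id fun h2 => ⟨q, p, hq, hp, h2⟩⟩

end Run7.h307
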