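import Mathlib

/-!
# Rational maps of projective varieties, on rational points

`K` is a field, `I` a homogeneous prime ideal of `K[z_0, …, z_N]`, `X = V(I)` in projective
`N`-space.
-/

set_option autoImplicit false

namespace Run7.h307

open MvPolynomial

/-- The polynomial ring `K[z_0, …, z_N]`. -/
abbrev Pol (K : Type) [Field K] (N : ℕ) : Type := MvPolynomial (Fin (N + 1)) K

/-- The fraction field of the homogeneous coordinate ring of `X = V(I)`. -/
abbrev Frac {K : Type} [Field K] {N : ℕ} (I : Ideal (Pol K N)) : Type := FractionRing (Pol K N ⧸ I)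

/-- The class of a polynomial in the fraction field of the homogeneous coordinate ring. -/
noncomputable def cls {K : Type} [Field K] {N : ℕ} (I : Ideal (Pol K N)) (G : Pol K N) : Frac I :=
  algebraMap (Pol K N ⧸ I) (Frac I) (Ideal.Quotient.mk I G)

/-- The rational functions on `X`: quotients of two forms of the same degree, the denominator
not vanishing on `X`. -/
def ratFun {K : Type} [Field K] {N : ℕ} (I : Ideal (Pol K N)) [I.IsPrime] : Set (Frac I) :=
  {q | ∃ (e : ℕ) (G H : Pol K N), G.IsHomogeneous e ∧ H.IsHomogeneous e ∧ H ∉ I ∧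
    q = cls I G / cls I H}

/-- The field of rational functions on `X` generated over `K` by the ratios of the forms
`Φ 0, …, Φ M`: the function field of the closure of the image of the rational map
`[Φ 0 : … : Φ M]`. -/
noncomputable def ratioField {K : Type} [Field K] {N M : ℕ} (I : Ideal (Pol K N)) [I.IsPrime]
    (Φ : Fin (M + 1) → Pol K N) : IntermediateField K (Frac I) :=
  IntermediateField.adjoin K {q | ∃ i j, q = cls I (Φ i) / cls I (Φ j)}

/-- `Φ 0, …, Φ M` are forms of the same degree, not all vanishing on `X`: they define a rational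
map from `X` to projective `M`-space. -/
def IsRat {K : Type} [Field K] {N M : ℕ} (I : Ideal (Pol K N)) (Φ : Fin (M + 1) → Pol K N) : Prop :=
  (∃ d : ℕ, ∀ i, (Φ i).IsHomogeneous d) ∧ ∃ i, Φ i ∉ I

/-- The point `p` lies on `X = V(I)`. -/
def OnX {K : Type} [Field K] {N : ℕ} (I : Ideal (Pol K N))
    (p : Projectivization K (Fin (N + 1) → K)) : Prop :=
  ∀ G ∈ I, eval p.rep G = 0

/-- The rational map `[Φ 0 : … : Φ M]` from `X` to projective `M`-space is defined at the point
`p` and takes the value `q` there: some forms `Φ' 0, …, Φ' M` of the same degree, proportional to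
`Φ 0, …, Φ M` on `X`, have at `p` the value `q` (so they do not all vanish at `p`). -/
def MapsTo {K : Type} [Field K] {N M : ℕ} (I : Ideal (Pol K N)) (Φ : Fin (M + 1) → Pol K N)
    (p : Projectivization K (Fin (N + 1) → K)) (q : Projectivization K (Fin (M + 1) → K)) : Prop :=
  ∃ (d : ℕ) (Φ' : Fin (M + 1) → Pol K N) (c : K), (∀ i, (Φ' i).IsHomogeneous d) ∧
    (∀ i j, Φ i * Φ' j - Φ j * Φ' i ∈ I) ∧ c ≠ 0 ∧ ∀ i, eval p.rep (Φ' i) = c * q.rep i

end Run7.h307
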