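import Mathlib

/-!
# Heights of the values of polynomials and of roots
-/

set_option autoImplicit false

namespace Run7.h307

open Height MvPolynomial

variable {K : Type} [Field K] [AdmissibleAbsValues K]

/-- the height of the vector of the powers -/
theorem ht_pows (k : ℕ) (t : K) :
    logHeight (fun i : Fin (k + 1) => t ^ (i : ℕ)) ≤ k * logHeight₁ t := by
  induction k with
  | zero => simp
  | succ k ih =>
    have h1 : (fun i : Fin (k + 1 + 1) => t ^ (i : ℕ)) =
        (fun a : Fin (k + 1) × Fin 2 => (fun i : Fin (k + 1) => t ^ (i : ℕ)) a.1 * ![t, 1] a.2) ∘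
          (fun i : Fin (k + 1 + 1) => if h : (i : ℕ) = 0 then (0, 1) else
            (⟨(i : ℕ) - 1, by omega⟩, 0)) := by
      funext i
      simp only [Function.comp_apply]
      split_ifs with h
      · simp [h]
      · simp only [Matrix.cons_val_zero]
        rw [← pow_succ]
        congr 1
        omega
    rw [h1]
    refine (logHeight_comp_le _ _).trans ?_
    have h2 : (fun i : Fin (k + 1) => t ^ (i : ℕ)) ≠ 0 := by
      intro h
      have := congrFun h 0
      simp at this
    have h3 : ![t, 1] ≠ 0 := by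
      intro h
      have := congrFun h 1
      simp at this
    rw [logHeight_fun_mul_eq (x := fun i : Fin (k + 1) => t ^ (i : ℕ)) h2 h3,
      ← logHeight₁_eq_logHeight]
    push_cast
    linarith

theorem ht_prod_le {ι τ : Type} [Finite ι] (s : Finset τ) (f : τ → ι → K) :
    logHeight (fun i => ∏ x ∈ s, f x i) ≤ ∑ x ∈ s, logHeight (f x) := by
  classical
  induction s using Finset.induction_on with
  | empty =>
    simp only [Finset.prod_empty, Finset.sum_empty]
    exact le_of_eq (logHeight_one (K := K) (ι := ι))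
  | insert x s hx ih =>
    simp only [Finset.prod_insert hx, Finset.sum_insert hx]
    have := logHeight_mul_le (f x) (fun i => ∏ x ∈ s, f x i)
    change logHeight (f x * fun i => ∏ x ∈ s, f x i) ≤ _
    linarith

/-- **The height of the values of polynomials**, in terms of the degrees in the variables. -/
theorem ht_eval {τ κ : Type} [Fintype τ] [Finite κ] (H : κ → MvPolynomial τ K) (d : τ → ℕ)
    (hd : ∀ k x, (H k).degreeOf x ≤ d x) :
    ∃ C : ℝ, ∀ p : τ → K, logHeight (fun k => eval p (H k)) ≤ C + ∑ x, d x * logHeight₁ (p x) := by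
  classical
  have : Fintype κ := Fintype.ofFinite κ
  let S : Finset (τ →₀ ℕ) := Finset.univ.biUnion fun k => (H k).support
  let A : κ × S → K := fun q => (H q.1).coeff q.2
  refine ⟨totalWeight K * Real.log (Nat.card S) + logHeight A, fun p => ?_⟩
  have h1 : (fun k => eval p (H k)) = fun k => ∑ γ : S, A (k, γ) * ∏ x, p x ^ (γ : τ →₀ ℕ) x := by
    funext k
    rw [eval_eq']
    rw [Finset.sum_coe_sort S (fun γ => (H k).coeff γ * ∏ x, p x ^ γ x)]
    refine Finset.sum_subset (fun γ hγ => ?_) (fun γ _ hγ => ?_)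
    · exact Finset.mem_biUnion.2 ⟨k, Finset.mem_univ _, hγ⟩
    · rw [notMem_support_iff.1 hγ, zero_mul]
  rw [h1]
  refine (logHeight_linearMap_apply_le A _).trans ?_
  have h2 : logHeight (fun γ : S => ∏ x, p x ^ (γ : τ →₀ ℕ) x) ≤
      ∑ x, logHeight (fun γ : S => p x ^ (γ : τ →₀ ℕ) x) :=
    ht_prod_le Finset.univ fun x (γ : S) => p x ^ (γ : τ →₀ ℕ) x
  have h3 : ∀ x, logHeight (fun γ : S => p x ^ (γ : τ →₀ ℕ) x) ≤ d x * logHeight₁ (p x) := by
    intro x
    have hγ : ∀ γ : S, (γ : τ →₀ ℕ) x < d x + 1 := by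
      rintro ⟨γ, hγ⟩
      obtain ⟨k, -, hk⟩ := Finset.mem_biUnion.1 hγ
      have := (monomial_le_degreeOf x hk).trans (hd k x)
      simp only
      omega
    have h4 : (fun γ : S => p x ^ (γ : τ →₀ ℕ) x) =
        (fun i : Fin (d x + 1) => p x ^ (i : ℕ)) ∘ fun γ : S => ⟨(γ : τ →₀ ℕ) x, hγ γ⟩ := by
      funext γ
      rfl
    rw [h4]
    exact (logHeight_comp_le _ _).trans (ht_pows _ _)
  have h5 := Finset.sum_le_sum fun x (_ : x ∈ Finset.univ) => h3 x
  linarith

/-- **The height of a root.** -/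
theorem ht_root (k : ℕ) : ∃ C : ℝ, ∀ (c : Fin (k + 1) → K) (t : K), c ≠ 0 →
    ∑ i, c i * t ^ (i : ℕ) = 0 → logHeight₁ t ≤ C + logHeight c := by
  classical
  let A : (j : Fin (k + 1)) → Fin ((j : ℕ) + 1) × (Fin (k + 1) × Fin (j : ℕ)) → K :=
    fun j q => if (q.1 : ℕ) < j then (if q.2.1 = j ∧ (q.2.2 : ℕ) = q.1 then 1 else 0) else
      (if (q.2.2 : ℕ) = q.2.1 then -1 else 0)
  let D : Fin (k + 1) → ℝ := fun j =>
    totalWeight K * Real.log (Nat.card (Fin (k + 1) × Fin (j : ℕ))) + logHeight (A j)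
  refine ⟨∑ j, |D j|, fun c t hc h0 => ?_⟩
  have hne : (Finset.univ.filter fun i => c i ≠ 0).Nonempty := by
    obtain ⟨i, hi⟩ := Function.ne_iff.1 hc
    exact ⟨i, by simpa using hi⟩
  obtain ⟨j, hj, hmax⟩ := Finset.exists_max_image _ (fun i : Fin (k + 1) => (i : ℕ)) hne
  have hcj : c j ≠ 0 := (Finset.mem_filter.1 hj).2
  have hgt : ∀ i, j < i → c i = 0 := by
    intro i hi
    by_contra h
    have := hmax i (Finset.mem_filter.2 ⟨Finset.mem_univ _, h⟩)
    exact absurd hi (not_lt.2 this)
  -- the sum over the indices up to `j`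
  have hsum : ∑ i ∈ Finset.univ.filter (fun i => i < j), c i * t ^ (i : ℕ) = - (c j * t ^ (j : ℕ)) := by
    have h1 : ∑ i, c i * t ^ (i : ℕ) = ∑ i ∈ Finset.univ.filter (fun i => i ≤ j), c i * t ^ (i : ℕ) := by
      rw [Finset.sum_filter]
      refine Finset.sum_congr rfl fun i _ => ?_
      split_ifs with h
      · rfl
      · rw [hgt i (not_le.1 h), zero_mul]
    have h2 : Finset.univ.filter (fun i => i ≤ j) =
        insert j (Finset.univ.filter (fun i => i < j)) := by
      ext i
      simp only [Finset.mem_filter, Finset.mem_univ, true_and, Finset.mem_insert]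
      exact ⟨fun h => h.eq_or_lt, fun h => h.elim (fun h => h.le) (fun h => h.le)⟩
    rw [h1, h2, Finset.sum_insert (by simp)] at h0
    linear_combination h0
  have hj0 : (j : ℕ) ≠ 0 := by
    intro hj0
    have h1 : (Finset.univ.filter (fun i : Fin (k + 1) => i < j)) = ∅ := by
      ext i
      simp only [Finset.mem_filter, Finset.mem_univ, true_and, Finset.notMem_empty, iff_false,
        not_lt]
      rw [Fin.le_def]
      omega
    rw [h1, Finset.sum_empty, hj0, pow_zero, mul_one] at hsum
    exact hcj (neg_eq_zero.1 hsum.symm)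
  have hj1 : 0 < (j : ℕ) := Nat.pos_of_ne_zero hj0
  -- the two vectors
  have hV' : (j : ℕ) * logHeight₁ t ≤ logHeight (fun i : Fin ((j : ℕ) + 1) => t ^ (i : ℕ)) := by
    rw [← logHeight₁_pow, logHeight₁_eq_logHeight]
    have h1 : ![t ^ (j : ℕ), 1] = (fun i : Fin ((j : ℕ) + 1) => t ^ (i : ℕ)) ∘
        (![⟨j, by omega⟩, 0] : Fin 2 → Fin ((j : ℕ) + 1)) := by
      funext i
      fin_cases i <;> simp
    rw [h1]
    exact logHeight_comp_le _ _
  have hV : logHeight (fun i : Fin (j : ℕ) => t ^ (i : ℕ)) ≤ ((j : ℕ) - 1 : ℝ) * logHeight₁ t := by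
    obtain ⟨l, hl⟩ : ∃ l, (j : ℕ) = l + 1 := ⟨(j : ℕ) - 1, by omega⟩
    have h1 := ht_pows l t
    have h2 : logHeight (fun i : Fin (j : ℕ) => t ^ (i : ℕ)) =
        logHeight (fun i : Fin (l + 1) => t ^ (i : ℕ)) := by
      have h3 : (fun i : Fin (j : ℕ) => t ^ (i : ℕ)) =
          (fun i : Fin (l + 1) => t ^ (i : ℕ)) ∘ (finCongr hl) := by
        funext i
        simp
      rw [h3, logHeight_comp_equiv]
    rw [h2, hl]
    push_cast
    linarith
  have hVne : (fun i : Fin (j : ℕ) => t ^ (i : ℕ)) ≠ 0 := by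
    intro h
    have := congrFun h ⟨0, hj1⟩
    simp at this
  have hlin : (c j) • (fun i : Fin ((j : ℕ) + 1) => t ^ (i : ℕ)) =
      fun q => ∑ r : Fin (k + 1) × Fin (j : ℕ), A j (q, r) * (c r.1 * t ^ (r.2 : ℕ)) := by
    funext q
    simp only [Pi.smul_apply, smul_eq_mul, A]
    by_cases hq : (q : ℕ) < j
    · simp only [hq, if_true]
      rw [Finset.sum_eq_single (j, ⟨(q : ℕ), hq⟩)]
      · simp
      · rintro ⟨i, l⟩ - hne
        have : ¬ (i = j ∧ (l : ℕ) = q) := by
          rintro ⟨rfl, h⟩
          exact hne (by rw [Prod.mk.injEq]; exact ⟨rfl, Fin.ext h⟩)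
        simp [this]
      · intro h
        exact absurd (Finset.mem_univ _) h
    · simp only [hq, if_false]
      have hq' : (q : ℕ) = j := by omega
      rw [hq', Fintype.sum_prod_type]
      have h1 : ∀ i : Fin (k + 1), ∑ l : Fin (j : ℕ),
          (if (l : ℕ) = i then (-1 : K) else 0) * (c i * t ^ (l : ℕ)) =
          if i < j then - (c i * t ^ (i : ℕ)) else 0 := by
        intro i
        by_cases hi : i < j
        · rw [Finset.sum_eq_single ⟨(i : ℕ), hi⟩]
          · simp [hi]
          · intro l _ hl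
            have : ¬ ((l : ℕ) = i) := fun h => hl (Fin.ext h)
            simp [this]
          · intro h
            exact absurd (Finset.mem_univ _) h
        · rw [if_neg hi]
          refine Finset.sum_eq_zero fun l _ => ?_
          have : ¬ ((l : ℕ) = i) := by
            intro h
            have := l.2
            rw [Fin.lt_def] at hi
            omega
          simp [this]
      rw [Finset.sum_congr rfl fun i _ => h1 i, ← Finset.sum_filter, Finset.sum_neg_distrib, hsum,
        neg_neg]
  have hfin : logHeight (fun i : Fin ((j : ℕ) + 1) => t ^ (i : ℕ)) ≤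
      D j + (logHeight c + logHeight (fun i : Fin (j : ℕ) => t ^ (i : ℕ))) := by
    rw [← logHeight_smul_eq_logHeight _ hcj, hlin]
    refine (logHeight_linearMap_apply_le (A j) _).trans ?_
    rw [logHeight_fun_mul_eq hc hVne]
  have hDj : D j ≤ ∑ j, |D j| :=
    (le_abs_self _).trans (Finset.single_le_sum (f := fun j => |D j|) (fun _ _ => abs_nonneg _)
      (Finset.mem_univ j))
  nlinarith
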