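import Pool.Agent.Run7.h307.Alg

/-!
# The interpolation lemma: multiples of a bivariate polynomial with a gap
-/

set_option autoImplicit false

namespace Run7.h307

open Polynomial

variable {F : Type} [Field F]

/-- the bivariate polynomial with given coefficients -/
noncomputable def toPoly (m k : ℕ) : (Fin m → Fin k → F) →ₗ[F] F[X][X] :=
  ∑ i : Fin m, ∑ j : Fin k,
    ((monomial (R := F[X]) (i : ℕ)).restrictScalars F ∘ₗ monomial (R := F) (j : ℕ)) ∘ₗ
      (LinearMap.proj j ∘ₗ LinearMap.proj i)

theorem toPoly_apply (m k : ℕ) (W : Fin m → Fin k → F) :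
    toPoly m k W = ∑ i : Fin m, ∑ j : Fin k, monomial (i : ℕ) (monomial (j : ℕ) (W i j)) := by
  simp only [toPoly, LinearMap.sum_apply]
  rfl

theorem toPoly_coeff (m k : ℕ) (W : Fin m → Fin k → F) (i : Fin m) (j : Fin k) :
    ((toPoly m k W).coeff i).coeff j = W i j := by
  rw [toPoly_apply, finsetSum_coeff, Finset.sum_eq_single i]
  · rw [finsetSum_coeff, finsetSum_coeff, Finset.sum_eq_single j]
    · rw [coeff_monomial, if_pos rfl, coeff_monomial, if_pos rfl]
    · intro j' _ hj
      rw [coeff_monomial, if_pos rfl, coeff_monomial, if_neg (fun h => hj (Fin.ext h))]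
    · intro h
      exact absurd (Finset.mem_univ _) h
  · intro i' _ hi
    rw [finsetSum_coeff]
    refine Finset.sum_eq_zero fun j' _ => ?_
    rw [coeff_monomial, if_neg (fun h => hi (Fin.ext h))]
  · intro h
    exact absurd (Finset.mem_univ _) h

theorem toPoly_degree (m k : ℕ) (W : Fin m → Fin k → F) (n : ℕ) (hn : m ≤ n) :
    (toPoly m k W).coeff n = 0 := by
  rw [toPoly_apply, finsetSum_coeff]
  refine Finset.sum_eq_zero fun i _ => ?_
  rw [finsetSum_coeff]
  refine Finset.sum_eq_zero fun j _ => ?_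
  rw [coeff_monomial, if_neg (by omega)]

theorem toPoly_degree' (m k : ℕ) (W : Fin m → Fin k → F) (n : ℕ) :
    ((toPoly m k W).coeff n).natDegree ≤ k - 1 := by
  rw [toPoly_apply, finsetSum_coeff]
  refine natDegree_sum_le_of_forall_le _ _ fun i _ => ?_
  rw [finsetSum_coeff]
  refine natDegree_sum_le_of_forall_le _ _ fun j _ => ?_
  rw [coeff_monomial]
  split_ifs
  · refine (natDegree_monomial_le _).trans ?_
    omega
  · simp

/-- **The interpolation lemma.** -/
theorem interp (P : F[X][X]) (hP : P ≠ 0) (b M N : ℕ) (hb : ∀ i, (P.coeff i).natDegree ≤ b)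
    (hM : P.natDegree ≤ M) (hN : b ≤ N) (h : M * b < P.natDegree * (N + 1)) :
    ∃ s w : F[X][X], s ≠ 0 ∧ (∀ i, P.natDegree ≤ i → s.coeff i = 0) ∧
      (∀ i, P.natDegree ≤ i → w.coeff i = 0) ∧
      (∀ i, (s.coeff i).natDegree ≤ N) ∧ (∀ i, (w.coeff i).natDegree ≤ N) ∧
      P ∣ X ^ M * s - w := by
  classical
  set a := P.natDegree with ha
  let T : (Fin M → Fin (N + 1 - b) → F) →ₗ[F] (Fin (M - a) → Fin (N + 1) → F) :=
    LinearMap.pi fun i => LinearMap.pi fun k =>
      (lcoeff F (k : ℕ)) ∘ₗ ((lcoeff F[X] (a + (i : ℕ))).restrictScalars F) ∘ₗ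
        ((LinearMap.mulLeft F[X][X] P).restrictScalars F) ∘ₗ toPoly M (N + 1 - b)
  have hT : ∀ W i k, T W i k = ((P * toPoly M (N + 1 - b) W).coeff (a + (i : ℕ))).coeff k :=
    fun W i k => rfl
  have hfin : Module.finrank F (Fin (M - a) → Fin (N + 1) → F) <
      Module.finrank F (Fin M → Fin (N + 1 - b) → F) := by
    simp only [Module.finrank_pi_fintype, Module.finrank_self, Finset.sum_const, Finset.card_univ,
      Fintype.card_fin, smul_eq_mul, mul_one]
    zify [hM, hN, show b ≤ N + 1 by omega]
    have h' : (M : ℤ) * b < a * (N + 1) := by exact_mod_cast h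
    nlinarith
  obtain ⟨W, hW, hW0⟩ := Submodule.exists_mem_ne_zero_of_ne_bot
    (LinearMap.ker_ne_bot_of_finrank_lt (f := T) hfin)
  have hPW : ∀ n, a ≤ n → n < M → (P * toPoly M (N + 1 - b) W).coeff n = 0 := by
    intro n hn1 hn2
    ext k
    rw [coeff_zero]
    by_cases hk : k < N + 1
    · have h1 := congrFun (congrFun (LinearMap.mem_ker.1 hW) ⟨n - a, by omega⟩) ⟨k, hk⟩
      rw [hT] at h1
      simp only [Pi.zero_apply] at h1
      rwa [show a + (n - a) = n by omega] at h1
    · refine coeff_eq_zero_of_natDegree_lt ?_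
      rw [coeff_mul]
      refine lt_of_le_of_lt (natDegree_sum_le_of_forall_le (n := N) _ _ fun q _ => ?_) (by omega)
      refine natDegree_mul_le.trans ?_
      have h1 := hb q.1
      have h2 := toPoly_degree' M (N + 1 - b) W q.2
      omega
  set W' := toPoly M (N + 1 - b) W with hW'
  have hW'0 : W' ≠ 0 := by
    intro h0
    apply hW0
    funext i j
    rw [← toPoly_coeff M (N + 1 - b) W i j, ← hW', h0]
    simp
  have hdeg : ∀ n, ((P * W').coeff n).natDegree ≤ N := by
    intro n
    rw [coeff_mul]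
    refine natDegree_sum_le_of_forall_le _ _ fun q _ => ?_
    refine natDegree_mul_le.trans ?_
    have h1 := hb q.1
    have h2 := toPoly_degree' M (N + 1 - b) W q.2
    rw [← hW'] at h2
    omega
  have hW'M : W'.natDegree < M := by
    rw [natDegree_lt_iff_degree_lt hW'0]
    rw [degree_lt_iff_coeff_zero]
    intro n hn
    exact toPoly_degree M (N + 1 - b) W n hn
  let s : F[X][X] := ∑ i ∈ Finset.range a, monomial i ((P * W').coeff (M + i))
  let w : F[X][X] := - ∑ i ∈ Finset.range a, monomial i ((P * W').coeff i)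
  have hs : ∀ i, s.coeff i = if i < a then (P * W').coeff (M + i) else 0 := by
    intro i
    simp only [s, finsetSum_coeff, coeff_monomial]
    rw [Finset.sum_ite_eq' (Finset.range a) i]
    simp only [Finset.mem_range]
  have hw : ∀ i, w.coeff i = if i < a then - (P * W').coeff i else 0 := by
    intro i
    simp only [w, coeff_neg, finsetSum_coeff, coeff_monomial]
    rw [Finset.sum_ite_eq' (Finset.range a) i]
    simp only [Finset.mem_range]
    split_ifs <;> simp
  have heq : X ^ M * s - w = P * W' := by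
    ext1 n
    rw [coeff_sub, coeff_X_pow_mul', hs, hw]
    by_cases h1 : M ≤ n
    · rw [if_pos h1, show M + (n - M) = n by omega]
      by_cases h2 : n - M < a
      · rw [if_pos h2, if_neg (by omega), sub_zero]
      · rw [if_neg h2, if_neg (by omega), sub_zero]
        symm
        refine coeff_eq_zero_of_natDegree_lt ?_
        refine lt_of_le_of_lt natDegree_mul_le ?_
        omega
    · rw [if_neg h1, zero_sub]
      by_cases h2 : n < a
      · rw [if_pos h2, neg_neg]
      · rw [if_neg h2, neg_zero, hPW n (by omega) (by omega)]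
  refine ⟨s, w, ?_, ?_, ?_, ?_, ?_, ?_⟩
  · intro hs0
    rw [hs0, mul_zero, zero_sub] at heq
    have h1 : (P * W').natDegree = a + W'.natDegree := natDegree_mul hP hW'0
    have h2 : (P * W').coeff (a + W'.natDegree) ≠ 0 := by
      rw [← h1]
      exact leadingCoeff_ne_zero.2 (mul_ne_zero hP hW'0)
    rw [← heq, coeff_neg, hw, if_neg (by omega), neg_zero] at h2
    exact h2 rfl
  · intro i hi
    rw [hs, if_neg (by omega)]
  · intro i hi
    rw [hw, if_neg (by omega)]
  · intro i
    rw [hs]
    split_ifs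
    · exact hdeg _
    · simp
  · intro i
    rw [hw]
    split_ifs
    · rw [natDegree_neg]
      exact hdeg _
    · simp
  · exact ⟨W', heq⟩

end Run7.h307
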