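import Pool.Agent.Run7.h307.Proj

/-!
# Arithmetic degrees over a base: relative dimension at most one
-/

set_option autoImplicit false

namespace Run7.h307

open MvPolynomial Height Filter Topology

theorem logHeight_rep {K : Type} [Field K] [AdmissibleAbsValues K] {N : ℕ}
    (p : Projectivization K (Fin (N + 1) → K)) : p.logHeight = logHeight p.rep := by
  conv_lhs => rw [← p.mk_rep]
  rw [Projectivization.logHeight_mk]

/-- **Main theorem.** -/
theorem main {K : Type} [Field K] [NumberField K] {N M : ℕ} (I : Ideal (Pol K N)) [I.IsPrime]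
    (F : Fin (N + 1) → Pol K N) (hF : IsRat I F) (Φ : Fin (M + 1) → Pol K N) (hΦ : IsRat I Φ)
    (hdim : ∀ s ∈ ratFun I, ∀ t ∈ ratFun I, ¬ AlgebraicIndependent (ratioField I Φ) ![s, t])
    (x : ℕ → Projectivization K (Fin (N + 1) → K)) (hx : ∀ n, OnX I (x n))
    (hf : ∀ n, MapsTo I F (x n) (x (n + 1)))
    (b : ℕ → Projectivization K (Fin (M + 1) → K)) (hb : ∀ n, MapsTo I Φ (x n) (b n))
    (hgen : ∀ (G : Pol K M) (e : ℕ), G.IsHomogeneous e → bind₁ Φ G ∉ I →
      {n | eval (b n).rep G = 0}.Finite)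
    (β : ℝ) (hβ : Tendsto (fun n : ℕ => (max 1 (b n).logHeight) ^ (1 / (n : ℝ))) atTop (𝓝 β)) :
    ∃ α : ℝ, Tendsto (fun n : ℕ => (max 1 (x n).logHeight) ^ (1 / (n : ℝ))) atTop (𝓝 α) ∧
      (α = β ∨ ∃ p q : ℕ, 0 < p ∧ 0 < q ∧ α = p / q) := by
  classical
  simp only [logHeight_rep] at hβ ⊢
  obtain ⟨A, hA, hA0⟩ := exists_anisotropic K N
  obtain ⟨A', hA', hA'0⟩ := exists_anisotropic K M
  -- the identity map
  have hid : ∀ n, MapsTo I (fun i : Fin (N + 1) => (X i : Pol K N)) (x n) (x n) := by
    intro n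
    refine ⟨1, fun i => X i, 1, fun i => isHomogeneous_X K i, fun i j => ?_, one_ne_zero,
      fun i => ?_⟩
    · rw [mul_comm, sub_self]
      exact Ideal.zero_mem _
    · rw [eval_X, one_mul]
  have hX0 : ∃ i : Fin (N + 1), (X i : Pol K N) ∉ I := by
    by_contra hcon
    push Not at hcon
    apply (x 0).rep_nonzero
    funext i
    have := hx 0 _ (hcon i)
    rw [eval_X] at this
    exact this
  choose e he using fun n => exists_evalHom (x n) (hx n)
  have hlX := fun n => local_rep hA hA0 hX0 (e n) (he n) (hid n)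
  have hlF := fun n => local_rep hA hA0 hF.2 (e n) (he n) (hf n)
  have hlΦ := fun n => local_rep hA' hA'0 hΦ.2 (e n) (he n) (hb n)
  have hneX := (hlX 0).1
  have hneF := (hlF 0).1
  have hneΦ := (hlΦ 0).1
  choose nuX deX hX1 hX2 hX3 using fun n => (hlX n).2
  choose nuF deF hF1 hF2 hF3 using fun n => (hlF n).2
  choose nuΦ deΦ hΦ1 hΦ2 hΦ3 using fun n => (hlΦ n).2
  set y : Fin (N + 1) × Fin (N + 1) → Frac I := aff A (fun i => cls I (X i)) with hy
  set y' : Fin (N + 1) × Fin (N + 1) → Frac I := aff A (fun i => cls I (F i)) with hy'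
  set g : Fin (M + 1) × Fin (M + 1) → Frac I := aff A' (fun i => cls I (Φ i)) with hg
  let βn : ℕ → Fin (M + 1) × Fin (M + 1) → K := fun n => aff A' (b n).rep
  let yn : ℕ → Fin (N + 1) × Fin (N + 1) → K := fun n => aff A (x n).rep
  -- the relations
  have hS : Spec atTop (Sum.elim g (Sum.elim y y'))
      fun n => Sum.elim (βn n) (Sum.elim (yn n) (yn (n + 1))) := by
    intro H hH
    refine Eventually.of_forall fun n => ?_
    have h1 := spec_lemma (Q := Frac I) (e n)
      (Sum.elim (nuΦ n) (Sum.elim (nuX n) (nuF n)))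
      (Sum.elim (fun _ => deΦ n) (Sum.elim (fun _ => deX n) (fun _ => deF n)))
      (by rintro (k | k | k) <;> [exact hΦ1 n; exact hX1 n; exact hF1 n]) H (by
        rw [← hH]
        congr 1
        congr 1
        funext k
        rcases k with k | k | k
        · exact (hΦ2 n k).symm
        · exact (hX2 n k).symm
        · exact (hF2 n k).symm)
    rw [← h1]
    congr 1
    congr 1
    funext k
    rcases k with k | k | k
    · exact hΦ3 n k
    · exact hX3 n k
    · exact hF3 n k
  -- genericity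
  have hG : Gen atTop g βn := by
    intro ρ hρ
    obtain ⟨t, G, hGh, hGe⟩ := homog (K := K) (fun k : Fin (M + 1) × Fin (M + 1) => num k) A'
      (M + 1) (fun k => num_homog k) hA' ρ
    have h1 := hGe (Frac I) (aeval fun i => cls I (Φ i)) hneΦ
    have h2 : bind₁ Φ G ∉ I := by
      rw [← cls_eq_zero, cls_bind, h1]
      exact mul_ne_zero (pow_ne_zero _ hneΦ) hρ
    have h3 := hgen G _ hGh h2
    have h4 : ∀ᶠ n in atTop, n ∉ {n | eval (b n).rep G = 0} := by
      rw [← Nat.cofinite_eq_atTop]
      exact h3.compl_mem_cofinite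
    filter_upwards [h4] with n hn h5
    apply hn
    have h6 := hGe K (aeval (b n).rep) (hA'0 _ (b n).rep_nonzero)
    change aeval (b n).rep G = 0
    rw [h6]
    have h7 : eval (βn n) ρ = aeval (fun k : Fin (M + 1) × Fin (M + 1) =>
        aeval (b n).rep (num k : MvPolynomial (Fin (M + 1)) K) / aeval (b n).rep A') ρ := rfl
    rw [← h7, h5, mul_zero]
  -- dependence
  have hle := ratioField_le (I := I) (A := A') (Φ := Φ) hneΦ
  have hdim' : ∀ s ∈ ratFun I, ∀ t ∈ ratFun I, ¬ AlgebraicIndependent (FB K g) ![s, t] :=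
    fun s hs t ht h => hdim s hs t ht (algInd_mono hle _ h)
  have hyr : ∀ k, y k ∈ ratFun I := by
    intro k
    refine ⟨N + 1, num k, A, num_homog k, hA, ?_, ?_⟩
    · rw [← cls_eq_zero]
      intro h1
      apply hneX
      rw [← cls_bind, bind₁_X_left]
      exact h1
    · rw [hy]
      unfold aff
      rw [← cls_bind, ← cls_bind, bind₁_X_left]
      rfl
  have hyr' : ∀ k, y' k ∈ ratFun I := by
    obtain ⟨d, hd⟩ := hF.1
    intro k
    refine ⟨d * (N + 1), bind₁ F (num k), bind₁ F A, (num_homog k).aeval F hd, hA.aeval F hd, ?_,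
      ?_⟩
    · rw [← cls_eq_zero, cls_bind]
      exact hneF
    · rw [hy']
      unfold aff
      rw [← cls_bind, ← cls_bind]
  -- heights
  obtain ⟨C1, hC1, hh1⟩ := aff_height hA hA0
  obtain ⟨C2, hC2, hh2⟩ := aff_height hA' hA'0
  obtain ⟨C3, hC3, hh3⟩ := ht_bound (I := I) hΦ.2
  have hb1 : ∀ n, (1 : ℝ) ≤ max 1 (logHeight (b n).rep) := fun n => le_max_left _ _
  have hEn : Tendsto (fun n : ℕ => En βn n ^ (1 / (n : ℝ))) atTop (𝓝 β) := by
    refine tendsto_of_comparable (En βn) (fun n => max 1 (logHeight (b n).rep)) β (1 + C2)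
      (by linarith) hb1 (fun n => zero_le_one.trans (one_le_En βn n)) ?_ ?_ hβ
    · refine Eventually.of_forall fun n => ?_
      have h1 := (hh2 _ (b n).rep_nonzero).2
      have h2 := hb1 n
      unfold En
      change 1 + ∑ p, logHeight₁ (aff A' (b n).rep p) ≤ _
      linarith
    · refine Eventually.of_forall fun n => ?_
      have h1 := (hh2 _ (b n).rep_nonzero).1
      have h2 := one_le_En βn n
      have h3 : max 1 (logHeight (b n).rep) ≤ En βn n := by
        refine max_le h2 ?_
        unfold En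
        change _ ≤ 1 + ∑ p, logHeight₁ (aff A' (b n).rep p)
        linarith
      nlinarith
  obtain ⟨α, hα, hα'⟩ := core g y y' βn yn hS hG
    (fun k k' => hdim' _ (hyr k) _ (hyr k')) (fun k => hdim' _ (hyr k) _ (hyr' k)) β hEn
  refine ⟨α, ?_, hα'⟩
  have hTn : ∀ n, 1 ≤ Tn βn yn n := fun n => by
    have h1 := one_le_En βn n
    have h2 : 0 ≤ ∑ k, logHeight₁ (yn n k) := Finset.sum_nonneg fun k _ => zero_le_logHeight₁ _
    unfold Tn
    linarith
  refine tendsto_of_comparable (fun n => max 1 (logHeight (x n).rep)) (Tn βn yn) α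
    (1 + (1 + C2) * C3 + C1) (by positivity) hTn (fun n => zero_le_one.trans (le_max_left _ _))
    ?_ ?_ hα
  · refine Eventually.of_forall fun n => ?_
    have h1 := (hh1 _ (x n).rep_nonzero).1
    have h2 := hTn n
    have h3 : max 1 (logHeight (x n).rep) ≤ Tn βn yn n := by
      refine max_le h2 ?_
      have h4 := one_le_En βn n
      unfold Tn
      change _ ≤ En βn n + ∑ p, logHeight₁ (aff A (x n).rep p)
      linarith
    have h5 : 0 ≤ ((1 + C2) * C3 + C1) * Tn βn yn n := by positivity
    nlinarith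
  · refine Eventually.of_forall fun n => ?_
    have h1 := (hh1 _ (x n).rep_nonzero).2
    have h2 := (hh2 _ (b n).rep_nonzero).2
    have h3 := hh3 (x n) (b n) (hx n) (hb n)
    have hm : (1 : ℝ) ≤ max 1 (logHeight (x n).rep) := le_max_left _ _
    have h4 : max 1 (logHeight (b n).rep) ≤ C3 * max 1 (logHeight (x n).rep) := by
      refine max_le ?_ h3
      nlinarith
    have h5 : En βn n ≤ (1 + C2) * (C3 * max 1 (logHeight (x n).rep)) := by
      have h6 := hb1 n
      have h7 : En βn n ≤ (1 + C2) * max 1 (logHeight (b n).rep) := by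
        unfold En
        change 1 + ∑ p, logHeight₁ (aff A' (b n).rep p) ≤ _
        linarith
      exact h7.trans (mul_le_mul_of_nonneg_left h4 (by linarith))
    unfold Tn
    change En βn n + ∑ p, logHeight₁ (aff A (x n).rep p) ≤ _
    nlinarith

end Run7.h307
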