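import Pool.Agent.Run7.h307.Spec
import Pool.Agent.Run7.h307.Defs

/-!
# The projective layer
-/

set_option autoImplicit false

namespace Run7.h307

open MvPolynomial Height Filter Topology

variable {K : Type} [Field K] {N M : ℕ} {I : Ideal (Pol K N)}

/-- the class map as an algebra homomorphism -/
noncomputable def clsHom (I : Ideal (Pol K N)) : Pol K N →ₐ[K] Frac I :=
  (Algebra.algHom K (Pol K N ⧸ I) (Frac I)).comp (Ideal.Quotient.mkₐ K I)

theorem clsHom_apply (G : Pol K N) : clsHom I G = cls I G := rfl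

theorem cls_eq_zero [I.IsPrime] (G : Pol K N) : cls I G = 0 ↔ G ∈ I := by
  unfold cls
  rw [← Ideal.Quotient.eq_zero_iff_mem]
  constructor
  · intro h
    exact IsFractionRing.injective (Pol K N ⧸ I) (Frac I) (h.trans (map_zero _).symm)
  · intro h
    rw [h, map_zero]

/-- `cls` of a composite -/
theorem cls_bind (Ψ : Fin (M + 1) → Pol K N) (G : MvPolynomial (Fin (M + 1)) K) :
    cls I (bind₁ Ψ G) = aeval (fun i => cls I (Ψ i)) G := by
  rw [← clsHom_apply, ← AlgHom.comp_apply]
  have : (clsHom I).comp (bind₁ Ψ) = aeval (fun i => cls I (Ψ i)) := by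
    refine MvPolynomial.algHom_ext fun i => ?_
    rw [AlgHom.comp_apply, bind₁_X_right, aeval_X]
    rfl
  rw [this]

/-- evaluation at a point of `X` -/
theorem exists_evalHom (p : Projectivization K (Fin (N + 1) → K)) (hp : OnX I p) :
    ∃ e : (Pol K N ⧸ I) →ₐ[K] K, ∀ G, e (Ideal.Quotient.mk I G) = eval p.rep G := by
  refine ⟨Ideal.Quotient.liftₐ I (aeval p.rep) fun G hG => hp G hG, fun G => ?_⟩
  rfl

/-- proportional forms -/
theorem rep_prop [I.IsPrime] {Φ Φ' : Fin (M + 1) → Pol K N} (h0 : ∃ i, Φ i ∉ I)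
    (h : ∀ i j, Φ i * Φ' j - Φ j * Φ' i ∈ I) :
    ∃ c : Frac I, ∀ i, cls I (Φ' i) = c * cls I (Φ i) := by
  obtain ⟨k, hk⟩ := h0
  have hk' : cls I (Φ k) ≠ 0 := fun h1 => hk ((cls_eq_zero _).1 h1)
  refine ⟨cls I (Φ' k) / cls I (Φ k), fun i => ?_⟩
  have h1 := (cls_eq_zero _).2 (h k i)
  rw [← clsHom_apply, map_sub, map_mul, map_mul, clsHom_apply, clsHom_apply, clsHom_apply,
    clsHom_apply] at h1
  field_simp
  linear_combination h1

/-- **A rational map at a point.** -/
theorem local_rep [I.IsPrime] {A : MvPolynomial (Fin (M + 1)) K} (hA : A.IsHomogeneous (M + 1))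
    (hA0 : ∀ z : Fin (M + 1) → K, z ≠ 0 → eval z A ≠ 0) {Φ : Fin (M + 1) → Pol K N}
    (h0 : ∃ i, Φ i ∉ I) {p : Projectivization K (Fin (N + 1) → K)}
    {q : Projectivization K (Fin (M + 1) → K)}
    (e : (Pol K N ⧸ I) →ₐ[K] K) (he : ∀ G, e (Ideal.Quotient.mk I G) = eval p.rep G)
    (h : MapsTo I Φ p q) :
    aeval (fun i => cls I (Φ i)) A ≠ 0 ∧
    ∃ (nu : Fin (M + 1) × Fin (M + 1) → Pol K N ⧸ I) (de : Pol K N ⧸ I), e de ≠ 0 ∧
      (∀ k, aff A (fun i => cls I (Φ i)) k =
        algebraMap (Pol K N ⧸ I) (Frac I) (nu k) / algebraMap (Pol K N ⧸ I) (Frac I) de) ∧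
      ∀ k, aff A q.rep k = e (nu k) / e de := by
  obtain ⟨d, Φ', c, hd, hprop, hc, hval⟩ := h
  obtain ⟨c', hc'⟩ := rep_prop h0 hprop
  have hev : ∀ G : MvPolynomial (Fin (M + 1)) K,
      eval p.rep (bind₁ Φ' G) = eval (fun i => c * q.rep i) G := by
    intro G
    change aeval p.rep (bind₁ Φ' G) = aeval (fun i => c * q.rep i) G
    rw [← AlgHom.comp_apply]
    congr 1
    refine MvPolynomial.algHom_ext fun i => ?_
    rw [AlgHom.comp_apply, bind₁_X_right, aeval_X]
    exact hval i
  have hne : (fun i => c * q.rep i) ≠ 0 := by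
    intro h1
    apply q.rep_nonzero
    funext i
    have := congrFun h1 i
    simp only [Pi.zero_apply, mul_eq_zero] at this
    exact this.resolve_left hc
  have hden : eval p.rep (bind₁ Φ' A) ≠ 0 := by
    rw [hev]
    exact hA0 _ hne
  have hcA : cls I (bind₁ Φ' A) ≠ 0 := by
    intro h1
    have h2 : Ideal.Quotient.mk I (bind₁ Φ' A) = 0 := Ideal.Quotient.eq_zero_iff_mem.2
      ((cls_eq_zero _).1 h1)
    apply hden
    rw [← he, h2, map_zero]
  have hsc : (fun i => cls I (Φ' i)) = fun i => c' * cls I (Φ i) := funext hc'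
  have h1 : c' ^ (M + 1) * aeval (fun i => cls I (Φ i)) A ≠ 0 := by
    rw [← aeval_smul hA, ← hsc, ← cls_bind]
    exact hcA
  have hc0 : c' ≠ 0 := by
    intro h2
    rw [h2] at h1
    exact h1 (by rw [zero_pow (by omega), zero_mul])
  refine ⟨right_ne_zero_of_mul h1, fun k => Ideal.Quotient.mk I (bind₁ Φ' (num k)),
    Ideal.Quotient.mk I (bind₁ Φ' A), ?_, fun k => ?_, fun k => ?_⟩
  · rw [he]
    exact hden
  · rw [← aff_smul hA c' hc0, ← hsc]
    unfold aff
    rw [← cls_bind, ← cls_bind]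
    rfl
  · rw [he, he, hev, hev, ← aff_smul hA c hc]
    rfl

/-- **Heights of values of rational maps.** -/
theorem ht_bound [AdmissibleAbsValues K] [I.IsPrime] {Φ : Fin (M + 1) → Pol K N}
    (h0 : ∃ i, Φ i ∉ I) : ∃ C : ℝ, 1 ≤ C ∧ ∀ (p : Projectivization K (Fin (N + 1) → K))
    (q : Projectivization K (Fin (M + 1) → K)), OnX I p → MapsTo I Φ p q →
      logHeight q.rep ≤ C * max 1 (logHeight p.rep) := by
  classical
  let S : Set (Pol K N) := {G | ∃ (d : ℕ) (Φ' : Fin (M + 1) → Pol K N) (i : Fin (M + 1)),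
    (∀ i, (Φ' i).IsHomogeneous d) ∧ (∀ i j, Φ i * Φ' j - Φ j * Φ' i ∈ I) ∧ G = Φ' i}
  obtain ⟨T, hTS, hT⟩ := (Submodule.fg_span_iff_fg_span_finset_subset (R := Pol K N) S).1
    (IsNoetherian.noetherian _)
  have hT' : ∀ G : T, ∃ (d : ℕ) (Φ' : Fin (M + 1) → Pol K N) (i : Fin (M + 1)),
    (∀ i, (Φ' i).IsHomogeneous d) ∧ (∀ i j, Φ i * Φ' j - Φ j * Φ' i ∈ I) ∧ (G : Pol K N) = Φ' i :=
    fun G => hTS G.2
  choose d Ψ i hhom hprop hG using hT'
  have hC := fun G : T => logHeight_eval_le' (K := K) (hhom G)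
  choose C hC using hC
  refine ⟨1 + ∑ G : T, (|C G| + d G), ?_, fun p q hp hpq => ?_⟩
  · have : 0 ≤ ∑ G : T, (|C G| + (d G : ℝ)) := Finset.sum_nonneg fun G _ => by positivity
    linarith
  · obtain ⟨d', Φ', c, hd', hprop', hc, hval⟩ := hpq
    -- some form in `T` does not vanish at `p`
    obtain ⟨k, hk⟩ := Function.ne_iff.1 q.rep_nonzero
    simp only [Pi.zero_apply] at hk
    have hk' : eval p.rep (Φ' k) ≠ 0 := by
      rw [hval]
      exact mul_ne_zero hc hk
    have hex : ∃ G : T, eval p.rep (G : Pol K N) ≠ 0 := by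
      by_contra hcon
      push Not at hcon
      have h1 : Submodule.span (Pol K N) (T : Set (Pol K N)) ≤ RingHom.ker (eval p.rep) :=
        Submodule.span_le.2 fun G hG => hcon ⟨G, hG⟩
      rw [← hT] at h1
      exact hk' (h1 (Submodule.subset_span ⟨d', Φ', k, hd', hprop', rfl⟩))
    obtain ⟨G, hGp⟩ := hex
    -- the two representatives are proportional at `p`
    obtain ⟨c1, hc1⟩ := rep_prop h0 hprop'
    obtain ⟨c2, hc2⟩ := rep_prop h0 (hprop G)
    have hpp : ∀ a b, eval p.rep (Φ' a) * eval p.rep (Ψ G b) =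
        eval p.rep (Φ' b) * eval p.rep (Ψ G a) := by
      intro a b
      have h1 : Φ' a * Ψ G b - Φ' b * Ψ G a ∈ I := by
        rw [← cls_eq_zero, ← clsHom_apply, map_sub, map_mul, map_mul, clsHom_apply, clsHom_apply,
          clsHom_apply, clsHom_apply, hc1, hc1, hc2, hc2]
        ring
      have h2 := hp _ h1
      rw [map_sub, map_mul, map_mul] at h2
      linear_combination h2
    have hz : eval p.rep (Ψ G k) ≠ 0 := by
      intro h1
      have h2 := hpp k (i G)
      rw [h1, mul_zero, ← hG] at h2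
      exact mul_ne_zero hk' hGp h2
    have hqe : q.rep = (c⁻¹ * eval p.rep (Φ' k) * (eval p.rep (Ψ G k))⁻¹) •
        fun j => eval p.rep (Ψ G j) := by
      funext j
      simp only [Pi.smul_apply, smul_eq_mul]
      have h1 := hpp j k
      rw [hval, hval] at h1
      rw [hval]
      field_simp
      have h2 : q.rep j * eval p.rep (Ψ G k) * c = q.rep k * eval p.rep (Ψ G j) * c := by
        linear_combination h1
      exact mul_right_cancel₀ hc h2
    rw [hqe, logHeight_smul_eq_logHeight _ (mul_ne_zero (mul_ne_zero (inv_ne_zero hc) hk')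
      (inv_ne_zero hz))]
    have h3 := hC G p.rep
    have h4 : (1 : ℝ) ≤ max 1 (logHeight p.rep) := le_max_left _ _
    have h5 : logHeight p.rep ≤ max 1 (logHeight p.rep) := le_max_right _ _
    have h6 : C G ≤ |C G| * max 1 (logHeight p.rep) :=
      (le_abs_self _).trans (le_mul_of_one_le_right (abs_nonneg _) h4)
    have h7 : (d G : ℝ) * logHeight p.rep ≤ d G * max 1 (logHeight p.rep) :=
      mul_le_mul_of_nonneg_left h5 (Nat.cast_nonneg _)
    have h8 : |C G| + (d G : ℝ) ≤ ∑ G : T, (|C G| + (d G : ℝ)) :=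
      Finset.single_le_sum (f := fun G : T => |C G| + (d G : ℝ)) (fun G _ => by positivity)
        (Finset.mem_univ G)
    have h9 := mul_le_mul_of_nonneg_right h8 (zero_le_one.trans h4)
    nlinarith

/-- the ratios lie in the field generated by the affine coordinates -/
theorem ratioField_le [I.IsPrime] {A : MvPolynomial (Fin (M + 1)) K} {Φ : Fin (M + 1) → Pol K N}
    (hne : aeval (fun i => cls I (Φ i)) A ≠ 0) :
    ratioField I Φ ≤ FB K (aff A (fun i => cls I (Φ i))) := by
  unfold ratioField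
  rw [IntermediateField.adjoin_le_iff]
  rintro q ⟨i, j, rfl⟩
  by_cases hj : cls I (Φ j) = 0
  · rw [hj, div_zero]
    exact zero_mem _
  · have h1 : ∀ a b, aff A (fun i => cls I (Φ i)) (a, b) ∈
        FB K (aff A (fun i => cls I (Φ i))) := fun a b =>
      IntermediateField.subset_adjoin K _ ⟨(a, b), rfl⟩
    have h2 : cls I (Φ i) / cls I (Φ j) = aff A (fun i => cls I (Φ i)) (i, j) /
        aff A (fun i => cls I (Φ i)) (j, j) := by
      unfold aff
      rw [aeval_num, aeval_num]
      have : cls I (Φ j) ^ M ≠ 0 := pow_ne_zero _ hj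
      field_simp
    rw [h2]
    exact div_mem (h1 i j) (h1 j j)

theorem algInd_mono {Q : Type} [Field Q] [Algebra K Q] {E E' : IntermediateField K Q} (h : E ≤ E')
    {ι : Type} (v : ι → Q) (hv : AlgebraicIndependent E' v) : AlgebraicIndependent E v := by
  let _ : Algebra E E' := (IntermediateField.inclusion h).toAlgebra
  have : IsScalarTower E E' Q := IsScalarTower.of_algebraMap_eq fun x => rfl
  exact hv.restrictScalars (algebraMap E E').injective

end Run7.h307
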