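import Pool.Agent.Run7.h307.Alg2
import Pool.Agent.Run7.h307.Ht

/-!
# Heights of algebraically dependent functions over a moving base point
-/

set_option autoImplicit false

namespace Run7.h307

open MvPolynomial Height Filter

variable {K Q : Type} [Field K] [AdmissibleAbsValues K] [Field Q] [Algebra K Q] {σ : Type}
  [Fintype σ] {ι : Type} {l : Filter ι}

/-- the size of the base point -/
noncomputable def En {ι : Type} (βn : ι → σ → K) (n : ι) : ℝ := 1 + ∑ i, logHeight₁ (βn n i)

theorem one_le_En (βn : ι → σ → K) (n : ι) : 1 ≤ En βn n := by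
  have : 0 ≤ ∑ i, logHeight₁ (βn n i) := Finset.sum_nonneg fun i _ => zero_le_logHeight₁ _
  unfold En
  linarith

/-- The base points are generic. -/
def Gen (l : Filter ι) (β : σ → Q) (βn : ι → σ → K) : Prop :=
  ∀ ρ : MvPolynomial σ K, aeval β ρ ≠ 0 → ∀ᶠ n in l, eval (βn n) ρ ≠ 0

/-- The points satisfy the polynomial relations of the functions. -/
def Spec {τ : Type} (l : Filter ι) (p : τ → Q) (pn : ι → τ → K) : Prop :=
  ∀ H : MvPolynomial τ K, aeval p H = 0 → ∀ᶠ n in l, eval (pn n) H = 0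

omit [AdmissibleAbsValues K] [Fintype σ] in
theorem Spec.comp {τ τ' : Type} {p : τ → Q} {pn : ι → τ → K} (h : Spec l p pn) (e : τ' → τ) :
    Spec l (p ∘ e) (fun n => pn n ∘ e) := by
  intro H hH
  have h1 := h (rename e H) (by rw [aeval_rename]; exact hH)
  filter_upwards [h1] with n hn
  rwa [eval_rename] at hn

/-- the height of the values of polynomials, with separate bounds for two variables -/
theorem ht_eval2 {κ : Type} [Finite κ] (H : κ → MvPolynomial (σ ⊕ Fin 2) K) (dx dy : ℕ)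
    (hx : ∀ k, degreeOf (Sum.inr 0) (H k) ≤ dx) (hy : ∀ k, degreeOf (Sum.inr 1) (H k) ≤ dy) :
    ∃ C : ℝ, 0 ≤ C ∧ ∀ (βn : ι → σ → K) (n : ι) (x y : K),
      logHeight (fun k => eval (Sum.elim (βn n) ![x, y]) (H k)) ≤
        C * En βn n + dx * logHeight₁ x + dy * logHeight₁ y := by
  classical
  have : Fintype κ := Fintype.ofFinite κ
  let D : σ → ℕ := fun i => Finset.univ.sup fun k => degreeOf (Sum.inl i) (H k)
  obtain ⟨C, hC⟩ := ht_eval H (Sum.elim D ![dx, dy]) (by
    rintro k (i | j)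
    · exact Finset.le_sup (f := fun k => degreeOf (Sum.inl i) (H k)) (Finset.mem_univ k)
    · fin_cases j
      · exact hx k
      · exact hy k)
  have hD : (0 : ℝ) ≤ ∑ i, (D i : ℝ) := Finset.sum_nonneg fun i _ => Nat.cast_nonneg _
  refine ⟨|C| + ∑ i, (D i : ℝ), by positivity, fun βn n x y => ?_⟩
  refine (hC _).trans ?_
  rw [Fintype.sum_sum_type, Fin.sum_univ_two]
  simp only [Sum.elim_inl, Sum.elim_inr, Matrix.cons_val_zero, Matrix.cons_val_one]
  have h1 : ∑ i, (D i : ℝ) * logHeight₁ (βn n i) ≤ (∑ i, (D i : ℝ)) * En βn n := by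
    rw [Finset.sum_mul]
    refine Finset.sum_le_sum fun i _ => mul_le_mul_of_nonneg_left ?_ (Nat.cast_nonneg _)
    have h2 := Finset.single_le_sum (f := fun i => logHeight₁ (βn n i))
      (fun i _ => zero_le_logHeight₁ _) (Finset.mem_univ i)
    unfold En
    linarith
  have h3 := one_le_En βn n
  have h4 : C ≤ |C| * En βn n := (le_abs_self C).trans (le_mul_of_one_le_right (abs_nonneg C) h3)
  nlinarith

/-- the height of the values of polynomials at the base point -/
theorem ht_eval0 {κ : Type} [Finite κ] (H : κ → MvPolynomial σ K) :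
    ∃ C : ℝ, 0 ≤ C ∧ ∀ (βn : ι → σ → K) (n : ι),
      logHeight (fun k => eval (βn n) (H k)) ≤ C * En βn n := by
  classical
  have : Fintype κ := Fintype.ofFinite κ
  obtain ⟨C, hC⟩ := ht_eval H (fun i => Finset.univ.sup fun k => degreeOf i (H k))
    (fun k i => Finset.le_sup (f := fun k => degreeOf i (H k)) (Finset.mem_univ k))
  set D : σ → ℕ := fun i => Finset.univ.sup fun k => degreeOf i (H k)
  have hD : (0 : ℝ) ≤ ∑ i, (D i : ℝ) := Finset.sum_nonneg fun i _ => Nat.cast_nonneg _
  refine ⟨|C| + ∑ i, (D i : ℝ), by positivity, fun βn n => ?_⟩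
  refine (hC _).trans ?_
  have h1 : ∑ i, (D i : ℝ) * logHeight₁ (βn n i) ≤ (∑ i, (D i : ℝ)) * En βn n := by
    rw [Finset.sum_mul]
    refine Finset.sum_le_sum fun i _ => mul_le_mul_of_nonneg_left ?_ (Nat.cast_nonneg _)
    have h2 := Finset.single_le_sum (f := fun i => logHeight₁ (βn n i))
      (fun i _ => zero_le_logHeight₁ _) (Finset.mem_univ i)
    unfold En
    linarith
  have h3 := one_le_En βn n
  have h4 : C ≤ |C| * En βn n := (le_abs_self C).trans (le_mul_of_one_le_right (abs_nonneg C) h3)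
  nlinarith

/-- **Roots of polynomials over the base.** -/
theorem root_base (β : σ → Q) (βn : ι → σ → K) (hG : Gen l β βn) (R : Polynomial (FB K β))
    (hR : R ≠ 0) :
    ∃ (ρ : MvPolynomial σ K) (m : ℕ) (r : Fin (m + 1) → MvPolynomial σ K) (C : ℝ),
      aeval β ρ ≠ 0 ∧ (∀ x : Q, ∑ i, aeval β (r i) * x ^ (i : ℕ) =
        aeval β ρ * Polynomial.aeval x R) ∧ 0 ≤ C ∧
      ∀ᶠ n in l, ∀ x : K, ∑ i, eval (βn n) (r i) * x ^ (i : ℕ) = 0 →
        logHeight₁ x ≤ C * En βn n := by
  classical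
  obtain ⟨ρ, r, hρ, hr⟩ := common_den β (fun i : Fin (R.natDegree + 1) => R.coeff i)
  obtain ⟨C1, hC1⟩ := ht_root (K := K) R.natDegree
  obtain ⟨C2, hC20, hC2⟩ := ht_eval0 (ι := ι) r
  refine ⟨ρ, R.natDegree, r, |C1| + C2, hρ, fun x => ?_, by positivity, ?_⟩
  · rw [Polynomial.aeval_eq_sum_range, Finset.sum_range, Finset.mul_sum]
    refine Finset.sum_congr rfl fun i _ => ?_
    rw [hr, mul_assoc]
    rfl
  · have h1 : aeval β (r ⟨R.natDegree, by omega⟩) ≠ 0 := by
      rw [hr]
      refine mul_ne_zero hρ ?_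
      simp only [ne_eq, ZeroMemClass.coe_eq_zero]
      exact Polynomial.leadingCoeff_ne_zero.2 hR
    filter_upwards [hG _ h1] with n hn x hx
    have h2 : (fun i => eval (βn n) (r i)) ≠ 0 := fun h => hn (congrFun h _)
    have h3 := hC1 _ x h2 hx
    have h4 := hC2 βn n
    have h5 := one_le_En βn n
    have h6 : C1 ≤ |C1| * En βn n :=
      (le_abs_self C1).trans (le_mul_of_one_le_right (abs_nonneg C1) h5)
    linarith

/-- **The one-sided height inequality.** -/
theorem qp1 (β : σ → Q) (x y : Q) (βn : ι → σ → K) (xn yn : ι → K)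
    (hS : Spec l (Sum.elim β ![x, y]) fun n => Sum.elim (βn n) ![xn n, yn n])
    (hG : Gen l β βn) (hy : Transcendental (FB K β) y)
    (P : Polynomial (Polynomial (FB K β))) (hP : P ≠ 0) (hP0 : ev (FB K β) x y P = 0)
    (hdvd : ∀ R, ev (FB K β) x y R = 0 → P ∣ R) (b M N : ℕ)
    (hb : ∀ i, (P.coeff i).natDegree ≤ b) (hM : P.natDegree ≤ M) (hN : b ≤ N)
    (h : M * b < P.natDegree * (N + 1)) :
    ∃ C : ℝ, 0 ≤ C ∧ ∀ᶠ n in l, (M + 1 - P.natDegree : ℝ) * logHeight₁ (yn n) ≤
      N * logHeight₁ (xn n) + C * En βn n := by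
  classical
  obtain ⟨s, w, hs0, hsd, hwd, hsx, hwx, hsw⟩ := interp P hP b M N hb hM hN h
  have ha : 0 < P.natDegree := by
    by_contra h0
    have : P.natDegree = 0 := by omega
    rw [this] at h
    omega
  have hevs : ev (FB K β) x y s ≠ 0 := by
    intro h0
    have h1 := Polynomial.natDegree_le_of_dvd (hdvd s h0) hs0
    have h2 : s.coeff s.natDegree = 0 := hsd _ h1
    exact hs0 (Polynomial.leadingCoeff_eq_zero.1 h2)
  have hevw : y ^ M * ev (FB K β) x y s = ev (FB K β) x y w := by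
    obtain ⟨W, hW⟩ := hsw
    have h1 : ev (FB K β) x y (Polynomial.X ^ M * s - w) = 0 := by
      rw [hW, map_mul, hP0, zero_mul]
    rw [map_sub, map_mul, map_pow, ev_X] at h1
    linear_combination h1
  obtain ⟨ρ, H, hρ, hH, hHx, hHy⟩ := clear β x y N (P.natDegree - 1) ![s, w]
    (by
      intro k i hi
      fin_cases k
      · exact hsd i (by omega)
      · exact hwd i (by omega))
    (by
      intro k i
      fin_cases k
      · exact hsx i
      · exact hwx i)
  have hH0 : aeval (Sum.elim β ![x, y]) (H 0) = aeval β ρ * ev (FB K β) x y s := hH 0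
  have hH1 : aeval (Sum.elim β ![x, y]) (H 1) = aeval β ρ * ev (FB K β) x y w := hH 1
  -- the first identity
  have hI1 := hS (X (Sum.inr 1) ^ M * H 0 - H 1) (by
    rw [map_sub, map_mul, map_pow, aeval_X, hH0, hH1, ← hevw]
    simp only [Sum.elim_inr, Matrix.cons_val_one, Matrix.cons_val_fin_one]
    ring)
  -- the second identity
  obtain ⟨T, R, hR, hTR⟩ := exists_bezout y x hy (Polynomial.Bivariate.swap P)
    (by simpa using hP) (by rw [ev_swap]; exact hP0) (Polynomial.Bivariate.swap s)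
    (by rw [ev_swap]; exact hevs)
  rw [ev_swap] at hTR
  obtain ⟨ρ1, m, r, C1, hρ1, hr, hC1, hroot⟩ := root_base β βn hG R hR
  obtain ⟨ρ2, H2, hρ2, hH2, -, -⟩ := clear β x y
    (Finset.sup (Finset.range ((Polynomial.Bivariate.swap T).natDegree + 1)) fun i =>
      ((Polynomial.Bivariate.swap T).coeff i).natDegree) (Polynomial.Bivariate.swap T).natDegree
    (fun _ : Unit => Polynomial.Bivariate.swap T)
    (fun _ i hi => Polynomial.coeff_eq_zero_of_natDegree_lt hi)
    (by
      intro _ i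
      by_cases hi : i < (Polynomial.Bivariate.swap T).natDegree + 1
      · exact Finset.le_sup (f := fun i => ((Polynomial.Bivariate.swap T).coeff i).natDegree)
          (Finset.mem_range.2 hi)
      · rw [Polynomial.coeff_eq_zero_of_natDegree_lt (by omega)]
        simp)
  have hI2 := hS (rename Sum.inl ρ1 * (H2 () * H 0) -
      rename Sum.inl (ρ2 * ρ) * ∑ i, rename Sum.inl (r i) * X (Sum.inr 1) ^ (i : ℕ)) (by
    have e1 : (Sum.elim β ![x, y]) ∘ (Sum.inl : σ → σ ⊕ Fin 2) = β := by
      funext i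
      rfl
    rw [map_sub, map_mul, map_mul, map_mul, aeval_rename, aeval_rename, hH2, hH0, e1, map_sum]
    have e2 : ∑ i, aeval (Sum.elim β ![x, y]) (rename Sum.inl (r i) *
        X (Sum.inr 1 : σ ⊕ Fin 2) ^ (i : ℕ)) = aeval β ρ1 * Polynomial.aeval y R := by
      rw [← hr y]
      refine Finset.sum_congr rfl fun i _ => ?_
      rw [map_mul, map_pow, aeval_X, aeval_rename, e1]
      rfl
    rw [e2, ← hTR, ev_swap, map_mul]
    ring)
  obtain ⟨C2, hC20, hC2⟩ := ht_eval2 (ι := ι) H N (P.natDegree - 1) hHx hHy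
  have hMa : (0 : ℝ) ≤ M + 1 - P.natDegree := by
    have : (P.natDegree : ℝ) ≤ M := by exact_mod_cast hM
    linarith
  refine ⟨C2 + (M + 1 - P.natDegree) * C1, by positivity, ?_⟩
  filter_upwards [hI1, hI2, hroot, hG _ hρ2, hG _ hρ] with n h1 h2 h3 h4 h5
  have e1 : (Sum.elim (βn n) ![xn n, yn n]) ∘ (Sum.inl : σ → σ ⊕ Fin 2) = βn n := by
    funext i
    rfl
  have hE := one_le_En βn n
  have hxn := zero_le_logHeight₁ (xn n)
  have hyn := zero_le_logHeight₁ (yn n)
  by_cases hz : eval (Sum.elim (βn n) ![xn n, yn n]) (H 0) = 0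
  · -- the denominator vanishes
    rw [map_sub, map_mul, map_mul, map_mul, hz, mul_zero, mul_zero, zero_sub, neg_eq_zero,
      mul_eq_zero, eval_rename, e1, map_mul, mul_eq_zero] at h2
    rcases h2 with (h2 | h2) | h2
    · exact absurd h2 h4
    · exact absurd h2 h5
    · rw [map_sum] at h2
      have h6 := h3 (yn n) (by
        rw [← h2]
        refine Finset.sum_congr rfl fun i _ => ?_
        rw [map_mul, map_pow, eval_X, eval_rename, e1]
        rfl)
      have h7 : (M + 1 - P.natDegree : ℝ) * logHeight₁ (yn n) ≤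
          (M + 1 - P.natDegree) * (C1 * En βn n) := mul_le_mul_of_nonneg_left h6 hMa
      nlinarith [mul_nonneg (Nat.cast_nonneg (α := ℝ) N) hxn]
  · rw [map_sub, map_mul, map_pow, eval_X] at h1
    simp only [Sum.elim_inr, Matrix.cons_val_one, Matrix.cons_val_fin_one] at h1
    have h6 : yn n ^ M = eval (Sum.elim (βn n) ![xn n, yn n]) (H 1) /
        eval (Sum.elim (βn n) ![xn n, yn n]) (H 0) := by
      rw [eq_div_iff hz]
      linear_combination h1
    have h7 : (M : ℝ) * logHeight₁ (yn n) = logHeight ![eval (Sum.elim (βn n) ![xn n, yn n]) (H 1),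
        eval (Sum.elim (βn n) ![xn n, yn n]) (H 0)] := by
      rw [← logHeight₁_pow, h6, logHeight₁_div_eq_logHeight]
    have h8 : ![eval (Sum.elim (βn n) ![xn n, yn n]) (H 1),
        eval (Sum.elim (βn n) ![xn n, yn n]) (H 0)] =
        (fun k => eval (Sum.elim (βn n) ![xn n, yn n]) (H k)) ∘ (![1, 0] : Fin 2 → Fin 2) := by
      funext k
      fin_cases k <;> rfl
    have h9 := hC2 βn n (xn n) (yn n)
    have h10 := logHeight_comp_le (![1, 0] : Fin 2 → Fin 2)
      (fun k => eval (Sum.elim (βn n) ![xn n, yn n]) (H k))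
    rw [← h8, ← h7] at h10
    have h11 : ((P.natDegree - 1 : ℕ) : ℝ) = P.natDegree - 1 := by
      rw [Nat.cast_sub (by omega)]
      simp
    rw [h11] at h9
    nlinarith [mul_nonneg hMa (mul_nonneg hC1 (zero_le_one.trans hE))]

end Run7.h307
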