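import Pool.Agent.Run7.h307.Qp

/-!
# Heights of algebraically dependent functions over a moving base point: conclusions
-/

set_option autoImplicit false

namespace Run7.h307

open MvPolynomial Height Filter

variable {K Q : Type} [Field K] [AdmissibleAbsValues K] [Field Q] [Algebra K Q] {σ : Type}
  [Fintype σ] {ι : Type} {l : Filter ι}

/-- choice of the parameters -/
theorem exists_params (a b : ℕ) (ha : 0 < a) (ε : ℝ) (hε : 0 < ε) :
    ∃ M N : ℕ, a ≤ M ∧ b ≤ N ∧ M * b < a * (N + 1) ∧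
      (a : ℝ) * N ≤ (b + ε) * (M + 1 - a) := by
  obtain ⟨M, hM⟩ := exists_nat_ge (max (a : ℝ) (((b : ℝ) + ε) * a / ε))
  have h1 : (a : ℝ) ≤ M := (le_max_left _ _).trans hM
  have h2 : ((b : ℝ) + ε) * a / ε ≤ M := (le_max_right _ _).trans hM
  have h1' : a ≤ M := by exact_mod_cast h1
  refine ⟨M, M * b / a, h1', ?_, ?_, ?_⟩
  · rw [Nat.le_div_iff_mul_le ha, mul_comm]
    exact Nat.mul_le_mul_right b h1'
  · exact Nat.lt_mul_div_succ _ ha
  · have h3 : (a : ℝ) * ((M * b / a : ℕ) : ℝ) ≤ M * b := by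
      exact_mod_cast Nat.mul_div_le (M * b) a
    have h4 : ((b : ℝ) + ε) * a ≤ ε * M := by
      rw [div_le_iff₀ hε] at h2
      linarith
    nlinarith [Nat.cast_nonneg (α := ℝ) b]

/-- the one-sided inequality, with `ε` -/
theorem qp_one (β : σ → Q) (x y : Q) (βn : ι → σ → K) (xn yn : ι → K)
    (hS : Spec l (Sum.elim β ![x, y]) fun n => Sum.elim (βn n) ![xn n, yn n])
    (hG : Gen l β βn) (hx : Transcendental (FB K β) x) (hy : Transcendental (FB K β) y)
    (P : Polynomial (Polynomial (FB K β))) (hP : P ≠ 0) (hP0 : ev (FB K β) x y P = 0)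
    (hdvd : ∀ R, ev (FB K β) x y R = 0 → P ∣ R) (b : ℕ)
    (hb : ∀ i, (P.coeff i).natDegree ≤ b) (ε : ℝ) (hε : 0 < ε) :
    ∃ C : ℝ, 0 ≤ C ∧ ∀ᶠ n in l, (P.natDegree : ℝ) * logHeight₁ (yn n) ≤
      (b + ε) * logHeight₁ (xn n) + C * En βn n := by
  have ha : 0 < P.natDegree := by
    by_contra h0
    have h1 : P.natDegree = 0 := by omega
    rw [Polynomial.eq_C_of_natDegree_eq_zero h1, ev_C] at hP0
    refine (transcendental_iff.1 hx) _ hP0 |> fun h2 => hP ?_
    rw [Polynomial.eq_C_of_natDegree_eq_zero h1, h2, Polynomial.C_0]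
  obtain ⟨M, N, hM, hN, h, hMN⟩ := exists_params P.natDegree b ha ε hε
  obtain ⟨C, hC0, hC⟩ := qp1 β x y βn xn yn hS hG hy P hP hP0 hdvd b M N hb hM hN h
  have hpos : (0 : ℝ) < M + 1 - P.natDegree := by
    have : (P.natDegree : ℝ) ≤ M := by exact_mod_cast hM
    linarith
  refine ⟨P.natDegree * C / (M + 1 - P.natDegree), by positivity, ?_⟩
  filter_upwards [hC] with n hn
  have hxn := zero_le_logHeight₁ (xn n)
  have h1 : (P.natDegree : ℝ) * logHeight₁ (yn n) * (M + 1 - P.natDegree) ≤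
      ((b + ε) * logHeight₁ (xn n) + P.natDegree * C / (M + 1 - P.natDegree) * En βn n) *
        (M + 1 - P.natDegree) := by
    have h2 : (P.natDegree * C / (M + 1 - P.natDegree) * En βn n) * (M + 1 - P.natDegree : ℝ) =
        P.natDegree * (C * En βn n) := by
      field_simp
    rw [add_mul, h2]
    have h3 : (P.natDegree : ℝ) * ((M + 1 - P.natDegree) * logHeight₁ (yn n)) ≤
        P.natDegree * (N * logHeight₁ (xn n) + C * En βn n) :=
      mul_le_mul_of_nonneg_left hn (Nat.cast_nonneg _)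
    have h4 : (P.natDegree : ℝ) * N * logHeight₁ (xn n) ≤
        (b + ε) * (M + 1 - P.natDegree) * logHeight₁ (xn n) :=
      mul_le_mul_of_nonneg_right hMN hxn
    nlinarith
  exact le_of_mul_le_mul_right h1 hpos

/-- **Proportional heights.** -/
theorem qp (β : σ → Q) (x y : Q) (βn : ι → σ → K) (xn yn : ι → K)
    (hS : Spec l (Sum.elim β ![x, y]) fun n => Sum.elim (βn n) ![xn n, yn n])
    (hG : Gen l β βn) (hx : Transcendental (FB K β) x) (hy : Transcendental (FB K β) y)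
    (R₀ : Polynomial (Polynomial (FB K β))) (hR₀ : R₀ ≠ 0) (h0 : ev (FB K β) x y R₀ = 0) :
    ∃ a b : ℕ, 0 < a ∧ 0 < b ∧ ∀ ε : ℝ, 0 < ε → ∃ C : ℝ, 0 ≤ C ∧ ∀ᶠ n in l,
      (a : ℝ) * logHeight₁ (yn n) ≤ (b + ε) * logHeight₁ (xn n) + C * En βn n ∧
      (b : ℝ) * logHeight₁ (xn n) ≤ (a + ε) * logHeight₁ (yn n) + C * En βn n := by
  obtain ⟨P, hP, -, hP0, hdvd⟩ := exists_rel x y hx R₀ hR₀ h0
  have hS' : Spec l (Sum.elim β ![y, x]) fun n => Sum.elim (βn n) ![yn n, xn n] := by
    have h1 := hS.comp (Sum.map id (Equiv.swap (0 : Fin 2) 1))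
    have e1 : (Sum.elim β ![x, y]) ∘ (Sum.map id (Equiv.swap (0 : Fin 2) 1)) =
        Sum.elim β ![y, x] := by
      funext i
      rcases i with i | i
      · rfl
      · fin_cases i <;> rfl
    have e2 : (fun n => (Sum.elim (βn n) ![xn n, yn n]) ∘
        (Sum.map id (Equiv.swap (0 : Fin 2) 1))) = fun n => Sum.elim (βn n) ![yn n, xn n] := by
      funext n i
      rcases i with i | i
      · rfl
      · fin_cases i <;> rfl
    rw [e1, e2] at h1
    exact h1
  have hsP : Polynomial.Bivariate.swap P ≠ 0 := by simpa using hP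
  have hsP0 : ev (FB K β) y x (Polynomial.Bivariate.swap P) = 0 := by
    rw [ev_swap]
    exact hP0
  have hsdvd : ∀ R, ev (FB K β) y x R = 0 → Polynomial.Bivariate.swap P ∣ R := by
    intro R hR
    have h1 := hdvd (Polynomial.Bivariate.swap R) (by rw [ev_swap]; exact hR)
    obtain ⟨W, hW⟩ := h1
    refine ⟨Polynomial.Bivariate.swap W, ?_⟩
    rw [← map_mul, ← hW, Polynomial.Bivariate.swap_swap_apply]
  have ha : 0 < P.natDegree := by
    by_contra h0
    have h1 : P.natDegree = 0 := by omega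
    rw [Polynomial.eq_C_of_natDegree_eq_zero h1, ev_C] at hP0
    refine (transcendental_iff.1 hx) _ hP0 |> fun h2 => hP ?_
    rw [Polynomial.eq_C_of_natDegree_eq_zero h1, h2, Polynomial.C_0]
  have hb : 0 < (Polynomial.Bivariate.swap P).natDegree := by
    by_contra h0
    have h1 : (Polynomial.Bivariate.swap P).natDegree = 0 := by omega
    rw [Polynomial.eq_C_of_natDegree_eq_zero h1, ev_C] at hsP0
    refine (transcendental_iff.1 hy) _ hsP0 |> fun h2 => hsP ?_
    rw [Polynomial.eq_C_of_natDegree_eq_zero h1, h2, Polynomial.C_0]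
  refine ⟨P.natDegree, (Polynomial.Bivariate.swap P).natDegree, ha, hb, fun ε hε => ?_⟩
  obtain ⟨C1, hC10, hC1⟩ := qp_one β x y βn xn yn hS hG hx hy P hP hP0 hdvd
    (Polynomial.Bivariate.swap P).natDegree (natDegree_coeff_le P) ε hε
  obtain ⟨C2, hC20, hC2⟩ := qp_one β y x βn yn xn hS' hG hy hx _ hsP hsP0 hsdvd P.natDegree
    (fun i => by
      have := natDegree_coeff_le (Polynomial.Bivariate.swap P) i
      rwa [Polynomial.Bivariate.swap_swap_apply] at this) ε hε
  refine ⟨C1 + C2, by positivity, ?_⟩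
  filter_upwards [hC1, hC2] with n h1 h2
  have hE := one_le_En βn n
  constructor
  · nlinarith
  · nlinarith

/-- **Algebraic over the base.** -/
theorem alg_base (β : σ → Q) (x : Q) (βn : ι → σ → K) (xn : ι → K)
    (hS : Spec l (Sum.elim β ![x, x]) fun n => Sum.elim (βn n) ![xn n, xn n])
    (hG : Gen l β βn) (hx : IsAlgebraic (FB K β) x) :
    ∃ C : ℝ, 0 ≤ C ∧ ∀ᶠ n in l, logHeight₁ (xn n) ≤ C * En βn n := by
  obtain ⟨R, hR, hR0⟩ := hx
  obtain ⟨ρ, m, r, C, hρ, hr, hC0, hC⟩ := root_base β βn hG R hR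
  refine ⟨C, hC0, ?_⟩
  have h1 := hS (∑ i, rename Sum.inl (r i) * X (Sum.inr 0) ^ (i : ℕ)) (by
    rw [map_sum]
    have e1 : (Sum.elim β ![x, x]) ∘ (Sum.inl : σ → σ ⊕ Fin 2) = β := by
      funext i
      rfl
    have e2 : ∑ i, aeval (Sum.elim β ![x, x]) (rename Sum.inl (r i) *
        X (Sum.inr 0 : σ ⊕ Fin 2) ^ (i : ℕ)) = aeval β ρ * Polynomial.aeval x R := by
      rw [← hr x]
      refine Finset.sum_congr rfl fun i _ => ?_
      rw [map_mul, map_pow, aeval_X, aeval_rename, e1]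
      rfl
    rw [e2, hR0, mul_zero])
  filter_upwards [h1, hC] with n h2 h3
  refine h3 _ ?_
  rw [← h2, map_sum]
  refine Finset.sum_congr rfl fun i _ => ?_
  have e1 : (Sum.elim (βn n) ![xn n, xn n]) ∘ (Sum.inl : σ → σ ⊕ Fin 2) = βn n := by
    funext i
    rfl
  rw [map_mul, map_pow, eval_X, eval_rename, e1]
  rfl

/-- **Algebraic over the base and a transcendental function.** -/
theorem alg_over (β : σ → Q) (x y : Q) (βn : ι → σ → K) (xn yn : ι → K)
    (hS : Spec l (Sum.elim β ![x, y]) fun n => Sum.elim (βn n) ![xn n, yn n])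
    (hG : Gen l β βn) (hx : Transcendental (FB K β) x)
    (R₀ : Polynomial (Polynomial (FB K β))) (hR₀ : R₀ ≠ 0) (h0 : ev (FB K β) x y R₀ = 0) :
    ∃ C : ℝ, 0 ≤ C ∧ ∀ᶠ n in l, logHeight₁ (yn n) ≤ C * (logHeight₁ (xn n) + En βn n) := by
  classical
  obtain ⟨P, hP, hprim, hP0, hdvd⟩ := exists_rel x y hx R₀ hR₀ h0
  obtain ⟨A, hA⟩ := exists_unit_comb P hprim P.natDegree le_rfl
  -- clear denominators in the coefficients of `P` and in the `A i`
  let s : Fin (P.natDegree + 1) ⊕ Fin (P.natDegree + 1) → Polynomial (Polynomial (FB K β)) :=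
    Sum.elim (fun i => Polynomial.C (P.coeff i)) (fun i => Polynomial.C (A i))
  let D : ℕ := Finset.univ.sup fun k => ((s k).coeff 0).natDegree
  have hsc : ∀ k i, 0 < i → (s k).coeff i = 0 := by
    rintro (k | k) i hi
    · exact Polynomial.coeff_C_of_ne_zero hi.ne'
    · exact Polynomial.coeff_C_of_ne_zero hi.ne'
  obtain ⟨ρ, H, hρ, hH, hHx, hHy⟩ := clear β x y D 0 s hsc (by
    intro k i
    rcases Nat.eq_zero_or_pos i with rfl | hi
    · exact Finset.le_sup (f := fun k => ((s k).coeff 0).natDegree) (Finset.mem_univ k)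
    · rw [hsc k i hi]
      simp)
  have hHP : ∀ i, aeval (Sum.elim β ![x, y]) (H (Sum.inl i)) =
      aeval β ρ * Polynomial.aeval x (P.coeff i) := by
    intro i
    rw [hH, ← ev_C (F := FB K β) x y (P.coeff i)]
    rfl
  have hHA : ∀ i, aeval (Sum.elim β ![x, y]) (H (Sum.inr i)) =
      aeval β ρ * Polynomial.aeval x (A i) := by
    intro i
    rw [hH, ← ev_C (F := FB K β) x y (A i)]
    rfl
  have e1 : (Sum.elim β ![x, y]) ∘ (Sum.inl : σ → σ ⊕ Fin 2) = β := by
    funext i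
    rfl
  have hI1 := hS (∑ i, H (Sum.inl i) * X (Sum.inr 1) ^ (i : ℕ)) (by
    rw [map_sum]
    have h1 : ev (FB K β) x y P = ∑ i : Fin (P.natDegree + 1),
        Polynomial.aeval x (P.coeff i) * y ^ (i : ℕ) := by
      conv_lhs => rw [P.as_sum_range_C_mul_X_pow]
      rw [map_sum, Finset.sum_range]
      refine Finset.sum_congr rfl fun i _ => ?_
      rw [map_mul, map_pow, ev_X, ev_C]
    rw [← mul_zero (aeval β ρ), ← hP0, h1, Finset.mul_sum]
    refine Finset.sum_congr rfl fun i _ => ?_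
    rw [map_mul, map_pow, aeval_X, hHP]
    simp only [Sum.elim_inr, Matrix.cons_val_one, Matrix.cons_val_fin_one]
    ring)
  have hI2 := hS (∑ i, H (Sum.inr i) * H (Sum.inl i) - rename Sum.inl (ρ * ρ)) (by
    rw [map_sub, map_sum, aeval_rename, e1, map_mul, sub_eq_zero]
    have h1 : ∑ i : Fin (P.natDegree + 1), Polynomial.aeval x (A i) *
        Polynomial.aeval x (P.coeff i) = 1 := by
      rw [← map_one (Polynomial.aeval (R := FB K β) x), ← hA, map_sum]
      exact Finset.sum_congr rfl fun i _ => (map_mul _ _ _).symm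
    rw [← mul_one (aeval β ρ * aeval β ρ), ← h1, Finset.mul_sum]
    refine Finset.sum_congr rfl fun i _ => ?_
    rw [map_mul, hHA, hHP]
    ring)
  obtain ⟨C1, hC1⟩ := ht_root (K := K) P.natDegree
  obtain ⟨C2, hC20, hC2⟩ := ht_eval2 (ι := ι) (fun i : Fin (P.natDegree + 1) => H (Sum.inl i)) D 0
    (fun i => hHx _) (fun i => hHy _)
  refine ⟨|C1| + C2 + D, by positivity, ?_⟩
  filter_upwards [hI1, hI2, hG ρ hρ] with n h1 h2 h3
  have e2 : (Sum.elim (βn n) ![xn n, yn n]) ∘ (Sum.inl : σ → σ ⊕ Fin 2) = βn n := by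
    funext i
    rfl
  have hne : (fun i : Fin (P.natDegree + 1) =>
      eval (Sum.elim (βn n) ![xn n, yn n]) (H (Sum.inl i))) ≠ 0 := by
    intro h4
    rw [map_sub, map_sum, eval_rename, e2, map_mul, sub_eq_zero] at h2
    have h5 : ∑ i, eval (Sum.elim (βn n) ![xn n, yn n]) (H (Sum.inr i) * H (Sum.inl i)) = 0 := by
      refine Finset.sum_eq_zero fun i _ => ?_
      have := congrFun h4 i
      simp only [Pi.zero_apply] at this
      rw [map_mul, this, mul_zero]
    rw [h5] at h2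
    exact mul_ne_zero h3 h3 h2.symm
  have h6 := hC1 _ (yn n) hne (by
    rw [← h1, map_sum]
    refine Finset.sum_congr rfl fun i _ => ?_
    rw [map_mul, map_pow, eval_X]
    rfl)
  have h7 := hC2 βn n (xn n) (yn n)
  have hE := one_le_En βn n
  have hxn := zero_le_logHeight₁ (xn n)
  have h8 : C1 ≤ |C1| * En βn n := (le_abs_self C1).trans (le_mul_of_one_le_right (abs_nonneg C1) hE)
  push_cast at h7
  nlinarith [mul_nonneg (abs_nonneg C1) hxn, mul_nonneg hC20 hxn,
    mul_nonneg (Nat.cast_nonneg (α := ℝ) D) (zero_le_one.trans hE)]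

end Run7.h307
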