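import Pool.Agent.Run7.h307.Aff
import Pool.Agent.Run7.h307.Core

/-!
# Specialization of rational functions at points
-/

set_option autoImplicit false

namespace Run7.h307

open MvPolynomial Height

/-- **Specialization.** -/
theorem spec_lemma {R K Q τ : Type} [CommRing R] [IsDomain R] [Field K] [Algebra K R] [Field Q]
    [Algebra R Q] [IsFractionRing R Q] [Algebra K Q] [IsScalarTower K R Q] (e : R →ₐ[K] K)
    (nu de : τ → R) (hde : ∀ i, e (de i) ≠ 0) (H : MvPolynomial τ K)
    (h : aeval (fun i => algebraMap R Q (nu i) / algebraMap R Q (de i)) H = 0) :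
    eval (fun i => e (nu i) / e (de i)) H = 0 := by
  classical
  let P : Ideal R := RingHom.ker (e : R →+* K)
  have hP : P.IsPrime := RingHom.ker_isPrime _
  let L := Localization.AtPrime P
  have hM : P.primeCompl ≤ nonZeroDivisors R := by
    intro r hr
    rw [mem_nonZeroDivisors_iff_ne_zero]
    rintro rfl
    exact hr (Ideal.zero_mem _)
  have hu1 : ∀ r : P.primeCompl, IsUnit (algebraMap R Q r) := by
    intro r
    rw [isUnit_iff_ne_zero]
    intro h1
    have h2 := (IsFractionRing.injective R Q) (h1.trans (map_zero _).symm)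
    exact nonZeroDivisors.ne_zero (hM r.2) h2
  have hu2 : ∀ r : P.primeCompl, IsUnit ((e : R →+* K) r) := by
    intro r
    rw [isUnit_iff_ne_zero]
    intro h1
    exact r.2 h1
  let ψ : L →+* Q := IsLocalization.lift (M := P.primeCompl) (S := L) hu1
  let ξ : L →+* K := IsLocalization.lift (M := P.primeCompl) (S := L) hu2
  have hinjL : Function.Injective (algebraMap R L) := IsLocalization.injective L hM
  have hψ : Function.Injective ψ := by
    rw [IsLocalization.lift_injective_iff]
    intro x y
    exact ⟨fun h1 => congrArg _ (hinjL h1), fun h1 => congrArg _ (IsFractionRing.injective R Q h1)⟩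
  let s : τ → P.primeCompl := fun i => ⟨de i, hde i⟩
  let w : τ → L := fun i => IsLocalization.mk' L (nu i) (s i)
  have hw1 : ∀ i, ψ (w i) = algebraMap R Q (nu i) / algebraMap R Q (de i) := by
    intro i
    have h1 : algebraMap R Q (de i) ≠ 0 := (hu1 (s i)).ne_zero
    rw [eq_div_iff h1]
    have h2 : w i * algebraMap R L (de i) = algebraMap R L (nu i) :=
      IsLocalization.mk'_spec L (nu i) (s i)
    have h3 := congrArg ψ h2
    rw [map_mul] at h3
    have h4 : ∀ r, ψ (algebraMap R L r) = algebraMap R Q r := fun r => IsLocalization.lift_eq hu1 r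
    rwa [h4, h4] at h3
  have hw2 : ∀ i, ξ (w i) = e (nu i) / e (de i) := by
    intro i
    rw [eq_div_iff (hde i)]
    have h2 : w i * algebraMap R L (de i) = algebraMap R L (nu i) :=
      IsLocalization.mk'_spec L (nu i) (s i)
    have h3 := congrArg ξ h2
    rw [map_mul] at h3
    have h4 : ∀ r, ξ (algebraMap R L r) = e r := fun r => IsLocalization.lift_eq hu2 r
    rwa [h4, h4] at h3
  let ι : K →+* L := (algebraMap R L).comp (algebraMap K R)
  have h1 : ψ (eval₂ ι w H) = 0 := by
    rw [eval₂_comp_left, ← h, aeval_def]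
    congr 1
    · refine RingHom.ext fun a => ?_
      change ψ (algebraMap R L (algebraMap K R a)) = _
      have h4 : ∀ r, ψ (algebraMap R L r) = algebraMap R Q r :=
        fun r => IsLocalization.lift_eq hu1 r
      rw [h4, ← IsScalarTower.algebraMap_apply]
    · funext i
      exact hw1 i
  have h2 : eval₂ ι w H = 0 := hψ (h1.trans (map_zero _).symm)
  have h3 : ξ (eval₂ ι w H) = 0 := by rw [h2, map_zero]
  rw [eval₂_comp_left] at h3
  rw [← h3]
  change eval₂ (RingHom.id K) _ H = _
  congr 1
  · refine RingHom.ext fun a => ?_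
    change a = ξ (algebraMap R L (algebraMap K R a))
    have h4 : ∀ r, ξ (algebraMap R L r) = e r := fun r => IsLocalization.lift_eq hu2 r
    rw [h4, e.commutes]
    rfl
  · funext i
    exact (hw2 i).symm

/-- **Homogenization.** -/
theorem homog {K τ s : Type} [Field K] (nu : τ → MvPolynomial s K) (A : MvPolynomial s K) (D : ℕ)
    (hn : ∀ i, (nu i).IsHomogeneous D) (hA : A.IsHomogeneous D) (ρ : MvPolynomial τ K) :
    ∃ (t : ℕ) (G : MvPolynomial s K), G.IsHomogeneous (D * t) ∧
      ∀ (S : Type) [Field S] [Algebra K S] (ε : MvPolynomial s K →ₐ[K] S), ε A ≠ 0 →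
        ε G = ε A ^ t * aeval (fun i => ε (nu i) / ε A) ρ := by
  induction ρ using MvPolynomial.induction_on with
  | C a =>
    refine ⟨0, C a, by simpa using isHomogeneous_C s a, fun S _ _ ε _ => ?_⟩
    rw [pow_zero, one_mul, aeval_C, ← MvPolynomial.algebraMap_eq, AlgHom.commutes]
  | add p q hp hq =>
    obtain ⟨t1, G1, h1, h2⟩ := hp
    obtain ⟨t2, G2, h3, h4⟩ := hq
    refine ⟨t1 + t2, G1 * A ^ t2 + G2 * A ^ t1, ?_, fun S _ _ ε hε => ?_⟩
    · refine IsHomogeneous.add ?_ ?_
      · rw [mul_add]
        exact h1.mul (hA.pow t2)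
      · rw [mul_add, add_comm]
        exact h3.mul (hA.pow t1)
    · rw [map_add, map_mul, map_mul, map_pow, map_pow, h2 S ε hε, h4 S ε hε, map_add]
      ring
  | mul_X p i hp =>
    obtain ⟨t1, G1, h1, h2⟩ := hp
    refine ⟨t1 + 1, G1 * nu i, ?_, fun S _ _ ε hε => ?_⟩
    · rw [mul_add, mul_one]
      exact h1.mul (hn i)
    · rw [map_mul, h2 S ε hε, map_mul, aeval_X]
      field_simp
      ring

end Run7.h307
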